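import Pool.Agent.KS6_2.SX.TT

/-!
The spaces `C₀(K)` are approximated by `c_0`: on every finite set of vectors the identity is
almost a product of two contractions `C₀(K) → c_0 → C₀(K)`.
-/

open Finset Filter Topology
open scoped ZeroAtInfty

set_option maxHeartbeats 400000

namespace Pool.Agent.KS62.SX

variable {𝕜 : Type} [RCLike 𝕜]

section

variable {K : Type} [TopologicalSpace K]

theorem cK_norm_le {x : C₀(K, 𝕜)} {C : ℝ} (hC : 0 ≤ C) (h : ∀ m, ‖x m‖ ≤ C) : ‖x‖ ≤ C := by
  rw [← ZeroAtInftyContinuousMap.norm_toBCF_eq_norm]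
  exact (BoundedContinuousFunction.norm_le hC).mpr h

theorem cK_coord_le (x : C₀(K, 𝕜)) (m : K) : ‖x m‖ ≤ ‖x‖ := by
  rw [← ZeroAtInftyContinuousMap.norm_toBCF_eq_norm]
  exact BoundedContinuousFunction.norm_coe_le_norm x.toBCF m

theorem cK_sum_apply {ι : Type} (s : Finset ι) (f : ι → C₀(K, 𝕜)) (m : K) :
    (∑ i ∈ s, f i) m = ∑ i ∈ s, f i m := by
  classical
  induction s using Finset.induction_on with
  | empty => simp
  | insert a s ha ih =>
    rw [sum_insert ha, sum_insert ha, ZeroAtInftyContinuousMap.add_apply, ih]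

theorem exists_partition [LocallyCompactSpace K] [T2Space K] (s : Finset (C₀(K, 𝕜))) {ε : ℝ}
    (hε : 0 < ε) : ∃ (T : Finset K) (f : {x // x ∈ T} → C₀(K, 𝕜)),
      (∀ x, ∑ i, ‖f i x‖ ≤ 1) ∧
      ∀ z ∈ s, ∀ x, ‖∑ i, z i.1 * f i x - z x‖ ≤ ε := by
  classical
  -- a compact set outside which the functions are small
  have hL : ∃ L : Set K, IsCompact L ∧ ∀ z ∈ s, ∀ x ∉ L, ‖z x‖ ≤ ε / 2 := by
    induction s using Finset.induction_on with
    | empty => exact ⟨∅, isCompact_empty, fun z hz => absurd hz (Finset.notMem_empty z)⟩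
    | insert a s ha ih =>
      obtain ⟨L, hL, h⟩ := ih
      have h0 := a.zero_at_infty'
      rw [Metric.tendsto_nhds] at h0
      have h1 := h0 (ε / 2) (by positivity)
      rw [Filter.eventually_iff, Filter.mem_cocompact] at h1
      obtain ⟨L', hL', h2⟩ := h1
      refine ⟨L ∪ L', hL.union hL', fun z hz x hx => ?_⟩
      rw [Set.mem_union, not_or] at hx
      rw [mem_insert] at hz
      rcases hz with rfl | hz
      · have h3 := h2 hx.2
        rw [Set.mem_ofPred_eq, dist_zero_right] at h3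
        exact h3.le
      · exact h z hz x hx.1
  obtain ⟨L, hLc, hLs⟩ := hL
  let U : K → Set K := fun x => ⋂ z ∈ s, {y | ‖z y - z x‖ < ε / 2}
  have hUo : ∀ x, IsOpen (U x) := fun x => by
    refine isOpen_biInter_finset fun z _ => ?_
    exact isOpen_lt ((z.continuous.sub continuous_const).norm) continuous_const
  have hUx : ∀ x, x ∈ U x := fun x => by
    simp only [U, Set.mem_iInter, Set.mem_ofPred_eq, sub_self, norm_zero]
    intro _ _; positivity
  obtain ⟨T, -, hT⟩ := hLc.elim_nhds_subcover U fun x _ => (hUo x).mem_nhds (hUx x)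
  obtain ⟨f, hf, hfc⟩ := PartitionOfUnity.exists_isSubordinate_of_locallyFinite_t2space hLc
    (fun i : {x // x ∈ T} => U i.1) (fun i => hUo i.1) (locallyFinite_of_finite _)
    (fun x hx => by
      obtain ⟨y, hy, hxy⟩ := Set.mem_iUnion₂.mp (hT hx)
      exact Set.mem_iUnion.mpr ⟨⟨y, hy⟩, hxy⟩)
  have hsum : ∀ x, ∑ i, f i x = ∑ᶠ i, f i x := fun x => (finsum_eq_sum_of_fintype _).symm
  have hnn : ∀ i x, 0 ≤ f i x := fun i x => f.nonneg i x
  let g : {x // x ∈ T} → C₀(K, 𝕜) := fun i =>
    { toFun := fun x => ((f i x : ℝ) : 𝕜)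
      continuous_toFun := RCLike.continuous_ofReal.comp (f i).continuous
      zero_at_infty' := by
        have h1 : HasCompactSupport (fun x => ((f i x : ℝ) : 𝕜)) :=
          (hfc i).comp_left (g := fun r : ℝ => (r : 𝕜)) (by simp)
        exact h1.is_zero_at_infty }
  have hg : ∀ i x, g i x = ((f i x : ℝ) : 𝕜) := fun i x => rfl
  have hgn : ∀ i x, ‖g i x‖ = f i x := fun i x => by
    rw [hg, RCLike.norm_ofReal, abs_of_nonneg (hnn i x)]
  refine ⟨T, g, fun x => ?_, fun z hz x => ?_⟩
  · simp_rw [hgn]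
    rw [hsum]
    exact f.sum_le_one x
  · have h1 : ∑ i, z i.1 * g i x - z x =
        ∑ i, (z i.1 - z x) * g i x - ((1 - ∑ i, f i x : ℝ) : 𝕜) * z x := by
      simp_rw [sub_mul]
      rw [sum_sub_distrib, ← mul_sum]
      have h2 : ∑ i, g i x = ((∑ i, f i x : ℝ) : 𝕜) := by
        rw [RCLike.ofReal_sum]
        exact sum_congr rfl fun i _ => hg i x
      rw [h2]
      push_cast
      ring
    rw [h1]
    have h3 : ‖∑ i, (z i.1 - z x) * g i x‖ ≤ ε / 2 := by
      calc ‖∑ i, (z i.1 - z x) * g i x‖ ≤ ∑ i, ε / 2 * f i x := by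
            refine (norm_sum_le _ _).trans (sum_le_sum fun i _ => ?_)
            rw [norm_mul, hgn]
            by_cases h0 : f i x = 0
            · rw [h0]; simp
            · have hx : x ∈ U i.1 := hf i (subset_tsupport _ h0)
              simp only [U, Set.mem_iInter, Set.mem_ofPred_eq] at hx
              have := hx z hz
              rw [norm_sub_rev] at this
              exact mul_le_mul_of_nonneg_right this.le (hnn i x)
        _ = ε / 2 * ∑ i, f i x := by rw [mul_sum]
        _ ≤ ε / 2 := by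
            apply mul_le_of_le_one_right (by positivity)
            rw [hsum]; exact f.sum_le_one x
    have h4 : ‖((1 - ∑ i, f i x : ℝ) : 𝕜) * z x‖ ≤ ε / 2 := by
      have h5 : ∑ i, f i x ≤ 1 := by rw [hsum]; exact f.sum_le_one x
      have h6 : 0 ≤ ∑ i, f i x := sum_nonneg fun i _ => hnn i x
      rw [norm_mul, RCLike.norm_ofReal, abs_of_nonneg (by linarith)]
      by_cases hx : x ∈ L
      · have : ∑ i, f i x = 1 := by rw [hsum]; exact f.sum_eq_one hx
        rw [this]; simp; positivity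
      · have h7 := hLs z hz x hx
        have h8 := norm_nonneg (z x)
        nlinarith
    exact (norm_sub_le _ _).trans (by linarith)

/-- On a finite set of vectors of `C₀(K)` the identity is almost a product of two contractions
through `c_0`. -/
theorem cK_approx [LocallyCompactSpace K] [T2Space K] (s : Finset (C₀(K, 𝕜))) {ε : ℝ}
    (hε : 0 < ε) : ∃ (u : C₀(K, 𝕜) →L[𝕜] C₀(ℕ, 𝕜)) (v : C₀(ℕ, 𝕜) →L[𝕜] C₀(K, 𝕜)),
      ‖u‖ ≤ 1 ∧ ‖v‖ ≤ 1 ∧ ∀ z ∈ s, ‖z - v (u z)‖ ≤ ε := by
  classical
  obtain ⟨T, f, hf1, hf2⟩ := exists_partition s hε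
  let e : {x // x ∈ T} → ℕ := fun i => (T.equivFin i : ℕ)
  have he : Function.Injective e := fun i j h => T.equivFin.injective (Fin.ext h)
  let u0 : C₀(K, 𝕜) →ₗ[𝕜] C₀(ℕ, 𝕜) :=
    { toFun := fun z => ∑ i : {x // x ∈ T}, z i.1 • (dl (e i) : C₀(ℕ, 𝕜))
      map_add' := fun z w => by
        rw [← sum_add_distrib]
        exact sum_congr rfl fun i _ => by
          refine ZeroAtInftyContinuousMap.ext fun m => ?_
          simp only [ZeroAtInftyContinuousMap.add_apply, ZeroAtInftyContinuousMap.smul_apply,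
            smul_eq_mul, add_mul]
      map_smul' := fun c z => by
        rw [RingHom.id_apply, smul_sum]
        exact sum_congr rfl fun i _ => by
          rw [ZeroAtInftyContinuousMap.smul_apply, smul_eq_mul, mul_smul] }
  have hu0 : ∀ z m, (u0 z) m = ∑ i : {x // x ∈ T}, (if m = e i then z i.1 else 0) := by
    intro z m
    show (∑ i : {x // x ∈ T}, z i.1 • (dl (e i) : C₀(ℕ, 𝕜))) m = _
    rw [cK_sum_apply]
    apply sum_congr rfl
    intro i _
    rw [ZeroAtInftyContinuousMap.smul_apply, dl_apply]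
    split_ifs <;> simp
  have hu1 : ∀ z i, (u0 z) (e i) = z i.1 := by
    intro z i
    rw [hu0, sum_eq_single_of_mem i (mem_univ _)]
    · simp
    · intro j _ hj
      rw [if_neg (fun h => hj (he h).symm)]
  have hub : ∀ z, ‖u0 z‖ ≤ 1 * ‖z‖ := by
    intro z
    rw [one_mul]
    refine c0_norm_le (norm_nonneg _) fun m => ?_
    by_cases h : ∃ i, m = e i
    · obtain ⟨i, rfl⟩ := h
      rw [hu1]
      exact cK_coord_le z _
    · push Not at h
      rw [hu0, sum_eq_zero (fun i _ => if_neg (h i)), norm_zero]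
      exact norm_nonneg _
  let v0 : C₀(ℕ, 𝕜) →ₗ[𝕜] C₀(K, 𝕜) :=
    { toFun := fun x => ∑ i : {x // x ∈ T}, x (e i) • f i
      map_add' := fun z w => by
        rw [← sum_add_distrib]
        exact sum_congr rfl fun i _ => by
          refine ZeroAtInftyContinuousMap.ext fun m => ?_
          simp only [ZeroAtInftyContinuousMap.add_apply, ZeroAtInftyContinuousMap.smul_apply,
            smul_eq_mul, add_mul]
      map_smul' := fun c z => by
        rw [RingHom.id_apply, smul_sum]
        exact sum_congr rfl fun i _ => by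
          rw [ZeroAtInftyContinuousMap.smul_apply, smul_eq_mul, mul_smul] }
  have hv0 : ∀ x m, (v0 x) m = ∑ i : {x // x ∈ T}, x (e i) * f i m := by
    intro x m
    show (∑ i : {x // x ∈ T}, x (e i) • f i) m = _
    rw [cK_sum_apply]
    exact sum_congr rfl fun i _ => by rw [ZeroAtInftyContinuousMap.smul_apply, smul_eq_mul]
  have hvb : ∀ x, ‖v0 x‖ ≤ 1 * ‖x‖ := by
    intro x
    rw [one_mul]
    refine cK_norm_le (norm_nonneg _) fun m => ?_
    rw [hv0]
    calc ‖∑ i : {x // x ∈ T}, x (e i) * f i m‖ ≤ ∑ i : {x // x ∈ T}, ‖x‖ * ‖f i m‖ := by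
          refine (norm_sum_le _ _).trans (sum_le_sum fun i _ => ?_)
          rw [norm_mul]
          exact mul_le_mul_of_nonneg_right (c0_coord_le x _) (norm_nonneg _)
      _ = ‖x‖ * ∑ i : {x // x ∈ T}, ‖f i m‖ := by rw [mul_sum]
      _ ≤ ‖x‖ := mul_le_of_le_one_right (norm_nonneg _) (hf1 m)
  refine ⟨u0.mkContinuous 1 hub, v0.mkContinuous 1 hvb,
    LinearMap.mkContinuous_norm_le _ zero_le_one _,
    LinearMap.mkContinuous_norm_le _ zero_le_one _, fun z hz => ?_⟩
  refine cK_norm_le hε.le fun x => ?_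
  rw [ZeroAtInftyContinuousMap.sub_apply, norm_sub_rev]
  have h1 : (v0.mkContinuous 1 hvb (u0.mkContinuous 1 hub z)) x = ∑ i, z i.1 * f i x := by
    show (v0 (u0 z)) x = _
    rw [hv0]
    exact sum_congr rfl fun i _ => by rw [hu1]
  rw [h1]
  exact hf2 z hz x

end

end Pool.Agent.KS62.SX
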