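import Pool.Agent.KS6_2.SX.TT

/-!
The inequality for one block: an operator which is `a` times the operator of `TT.lean` on the
unit vectors of a block and almost a product through `c_0` there.
-/

open Finset Filter Topology
open scoped ZeroAtInfty

set_option maxHeartbeats 400000

namespace Pool.Agent.KS62.SX

variable {𝕜 : Type} [RCLike 𝕜]

theorem Dat.fn_sum_ix_le {n : ℕ} {N : Set ℕ+} {w : Idx → (ℕ+ →₀ ℝ)} (hw : Sys n N w) (d : Dat)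
    (k : ℕ) (x : X 𝕜 n) :
    ∑ S : {S // S ∈ (d.I k).powerset}, ‖fn n w (d.ix k S) x‖ ≤ ‖x‖ := by
  classical
  refine le_trans ?_ (fn_sum_le hw (d.M k) x)
  have e1 : ∑ S : {S // S ∈ (d.I k).powerset}, ‖fn n w (d.ix k S) x‖ =
      ∑ i ∈ (univ : Finset {S // S ∈ (d.I k).powerset}).map (d.e k), ‖fn n w ⟨d.M k, i⟩ x‖ := by
    rw [sum_map]; rfl
  rw [e1]
  exact sum_le_sum_of_subset_of_nonneg (subset_univ _) fun i _ _ => norm_nonneg _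

theorem Dat.fn_T {n : ℕ} (hn : 1 ≤ n) {N : Set ℕ+} {w : Idx → (ℕ+ →₀ ℝ)} (hw : Sys n N w)
    (d : Dat) {k : ℕ} (S : {S // S ∈ (d.I k).powerset}) {j : ℕ+} (hj : j ∈ d.I k) :
    fn n w (d.ix k S) (d.T n w (inc 𝕜 n (Finsupp.single j 1))) =
      Dat.sn 𝕜 S.1 j / 2 ^ (d.I k).card := by
  classical
  rw [d.T_inc hn hw, fn_inc hw, Qm_J hw, d.D_ix]
  congr 1
  rw [sum_eq_single_of_mem j hj]
  · simp
  · intro i _ hne
    rw [Finsupp.single_apply, if_neg (Ne.symm hne), mul_zero]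

theorem Dat.block {n : ℕ} (hn : 1 ≤ n) {N : Set ℕ+} {w : Idx → (ℕ+ →₀ ℝ)}
    (hw : Sys n N w) (d : Dat) (k : ℕ) (c : ℕ+ → ℝ) (hc0 : ∀ j, 0 ≤ c j)
    (hc : ∀ E ∈ Sch n, ∑ j ∈ E, c j ≤ 1) {L : ℝ} (hcs : ∑ j ∈ d.I k, c j = L) (hL0 : 0 < L)
    (a : 𝕜) (W : Op 𝕜 n)
    (hW : ∀ j ∈ d.I k, W (inc 𝕜 n (Finsupp.single j 1)) =
      a • d.T n w (inc 𝕜 n (Finsupp.single j 1)))
    (A : C₀(ℕ, 𝕜) →L[𝕜] X 𝕜 n) (B : X 𝕜 n →L[𝕜] C₀(ℕ, 𝕜)) {δ : ℝ}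
    (hδ : ∀ j ∈ d.I k, ‖W (inc 𝕜 n (Finsupp.single j 1)) -
      A (B (inc 𝕜 n (Finsupp.single j 1)))‖ ≤ δ) :
    ‖a‖ * L ≤ δ * L + 384 * ‖A‖ * ((‖B‖ + 1) * Real.sqrt L) := by
  classical
  set T : X 𝕜 n →L[𝕜] X 𝕜 n := d.T n w with hT
  have hA0 : 0 ≤ ‖A‖ := A.opNorm_nonneg
  have hB0 : 0 ≤ ‖B‖ := B.opNorm_nonneg
  let Φ : {S // S ∈ (d.I k).powerset} → (C₀(ℕ, 𝕜) →L[𝕜] 𝕜) := fun S =>
    (fn n w (d.ix k S)) ∘L A
  have hΦ : ∀ x, ∑ S, ‖Φ S x‖ ≤ ‖A‖ * ‖x‖ := fun x =>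
    (d.fn_sum_ix_le hw k (A x)).trans (A.le_opNorm x)
  have hcsum : ∑ j : {j // j ∈ d.I k}, c j.1 = L := by
    rw [Finset.sum_coe_sort (d.I k) (fun j => c j)]; exact hcs
  have G1 := groth_c0 (𝕜 := 𝕜) (ι := {j // j ∈ d.I k}) Φ ‖A‖ hΦ hA0
    (fun j => B (inc 𝕜 n (Finsupp.single j.1 1))) (fun S j => Dat.sn 𝕜 S.1 j.1)
    (fun j => Real.sqrt (c j.1)) (β := ‖B‖ + 1) (σ := Real.sqrt L) (by positivity)
    (Real.sqrt_pos.mpr hL0) (by
      intro l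
      have h1 := weight_bound c hc0 hc (d.I k) B l
      rw [← Finset.sum_coe_sort (d.I k)
        (fun j => c j * ‖B (inc 𝕜 n (Finsupp.single j 1)) l‖ ^ 2)] at h1
      refine le_trans (le_of_eq (sum_congr rfl fun j _ => ?_)) (h1.trans ?_)
      · rw [Real.sq_sqrt (hc0 _)]
      · exact pow_le_pow_left₀ hB0 (by linarith) 2) (by
      intro S
      rw [Real.sq_sqrt hL0.le]
      refine le_of_eq ?_
      rw [← hcsum]
      apply sum_congr rfl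
      intro j _
      rw [Real.sq_sqrt (hc0 _), Dat.norm_sn]
      ring)
  -- the value for W
  have G2 : ∑ j : {j // j ∈ d.I k}, ((Real.sqrt (c j.1) ^ 2 : ℝ) : 𝕜) *
      ∑ S : {S // S ∈ (d.I k).powerset}, Dat.sn 𝕜 S.1 j.1 *
        fn n w (d.ix k S) (W (inc 𝕜 n (Finsupp.single j.1 1))) = a * (L : 𝕜) := by
    rw [← hcsum, RCLike.ofReal_sum, mul_sum]
    apply sum_congr rfl
    intro j _
    rw [Real.sq_sqrt (hc0 _)]
    have h1 : ∑ S : {S // S ∈ (d.I k).powerset}, Dat.sn 𝕜 S.1 j.1 *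
        fn n w (d.ix k S) (W (inc 𝕜 n (Finsupp.single j.1 1))) = a := by
      have h2 : ∀ S : {S // S ∈ (d.I k).powerset}, Dat.sn 𝕜 S.1 j.1 *
          fn n w (d.ix k S) (W (inc 𝕜 n (Finsupp.single j.1 1))) =
          a * (1 / 2 ^ (d.I k).card) := by
        intro S
        rw [hW j.1 j.2, map_smul, smul_eq_mul, hT, d.fn_T hn hw S j.2]
        calc Dat.sn 𝕜 S.1 j.1 * (a * (Dat.sn 𝕜 S.1 j.1 / 2 ^ (d.I k).card)) =
            a * ((Dat.sn 𝕜 S.1 j.1 * Dat.sn 𝕜 S.1 j.1) / 2 ^ (d.I k).card) := by ring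
          _ = _ := by rw [Dat.sn_mul_self]
      rw [sum_congr rfl (fun S _ => h2 S), sum_const, card_univ, Fintype.card_coe,
        card_powerset, nsmul_eq_mul]
      push_cast
      field_simp
    rw [h1]
    ring
  -- the difference
  have G3 : ‖∑ j : {j // j ∈ d.I k}, ((Real.sqrt (c j.1) ^ 2 : ℝ) : 𝕜) *
      ∑ S : {S // S ∈ (d.I k).powerset}, Dat.sn 𝕜 S.1 j.1 *
        fn n w (d.ix k S) (W (inc 𝕜 n (Finsupp.single j.1 1)) -
          A (B (inc 𝕜 n (Finsupp.single j.1 1))))‖ ≤ δ * L := by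
    calc _ ≤ ∑ j : {j // j ∈ d.I k}, c j.1 * δ := by
          refine (norm_sum_le _ _).trans (sum_le_sum fun j _ => ?_)
          rw [norm_mul, RCLike.norm_ofReal, Real.sq_sqrt (hc0 _), abs_of_nonneg (hc0 _)]
          apply mul_le_mul_of_nonneg_left _ (hc0 _)
          calc _ ≤ ∑ S : {S // S ∈ (d.I k).powerset},
                ‖fn n w (d.ix k S) (W (inc 𝕜 n (Finsupp.single j.1 1)) -
                  A (B (inc 𝕜 n (Finsupp.single j.1 1))))‖ := by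
                refine (norm_sum_le _ _).trans (le_of_eq (sum_congr rfl fun S _ => ?_))
                rw [norm_mul, Dat.norm_sn, one_mul]
            _ ≤ ‖W (inc 𝕜 n (Finsupp.single j.1 1)) -
                  A (B (inc 𝕜 n (Finsupp.single j.1 1)))‖ := d.fn_sum_ix_le hw k _
            _ ≤ δ := hδ j.1 j.2
      _ = δ * L := by rw [← sum_mul, hcsum]; ring
  have G4 : a * (L : 𝕜) = ∑ j : {j // j ∈ d.I k}, ((Real.sqrt (c j.1) ^ 2 : ℝ) : 𝕜) *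
      ∑ S : {S // S ∈ (d.I k).powerset}, Dat.sn 𝕜 S.1 j.1 *
        fn n w (d.ix k S) (W (inc 𝕜 n (Finsupp.single j.1 1)) -
          A (B (inc 𝕜 n (Finsupp.single j.1 1)))) +
      ∑ j : {j // j ∈ d.I k}, ((Real.sqrt (c j.1) ^ 2 : ℝ) : 𝕜) *
      ∑ S : {S // S ∈ (d.I k).powerset}, Dat.sn 𝕜 S.1 j.1 *
        Φ S (B (inc 𝕜 n (Finsupp.single j.1 1))) := by
    rw [← G2, ← sum_add_distrib]
    apply sum_congr rfl
    intro j _
    rw [← mul_add, ← sum_add_distrib]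
    congr 1
    apply sum_congr rfl
    intro S _
    rw [← mul_add]
    congr 1
    rw [map_sub]
    show _ = _ - _ + fn n w (d.ix k S) (A (B (inc 𝕜 n (Finsupp.single j.1 1))))
    abel
  have G5 : ‖a‖ * L = ‖a * (L : 𝕜)‖ := by rw [norm_mul, RCLike.norm_ofReal, abs_of_pos hL0]
  calc ‖a‖ * L = ‖a * (L : 𝕜)‖ := G5
    _ ≤ δ * L + 384 * ‖A‖ * ((‖B‖ + 1) * Real.sqrt L) := by
        rw [G4]
        exact (norm_add_le _ _).trans (add_le_add G3 G1)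

end Pool.Agent.KS62.SX
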