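import Mathlib

set_option autoImplicit false

namespace Pool.Agent.KS62.SXKhin

open Finset

/-- signed sum -/
noncomputable def sg (s u : Finset ℕ) (b : ℕ → ℂ) : ℂ := ∑ m ∈ s, (if m ∈ u then (1:ℂ) else -1) * b m

theorem sg_insert (s u : Finset ℕ) (b : ℕ → ℂ) (a : ℕ) (ha : a ∉ s) (hu : u ⊆ s) :
    sg (insert a s) u b = sg s u b - b a ∧ sg (insert a s) (insert a u) b = sg s u b + b a := by
  have hau : a ∉ u := fun h => ha (hu h)
  constructor
  · unfold sg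
    rw [Finset.sum_insert ha, if_neg hau]
    ring
  · unfold sg
    rw [Finset.sum_insert ha, if_pos (Finset.mem_insert_self a u)]
    have : ∑ m ∈ s, (if m ∈ insert a u then (1:ℂ) else -1) * b m =
        ∑ m ∈ s, (if m ∈ u then (1:ℂ) else -1) * b m := by
      refine Finset.sum_congr rfl fun m hm => ?_
      have hma : m ≠ a := fun h => ha (h ▸ hm)
      by_cases hmu : m ∈ u
      · rw [if_pos (Finset.mem_insert_of_mem hmu), if_pos hmu]
      · rw [if_neg, if_neg hmu]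
        rw [Finset.mem_insert]
        push Not
        exact ⟨hma, hmu⟩
    rw [this]
    ring

theorem parallel2 (S b : ℂ) : ‖S - b‖ ^ 2 + ‖S + b‖ ^ 2 = 2 * ‖S‖ ^ 2 + 2 * ‖b‖ ^ 2 := by
  rw [← Complex.normSq_eq_norm_sq, ← Complex.normSq_eq_norm_sq, ← Complex.normSq_eq_norm_sq,
    ← Complex.normSq_eq_norm_sq, Complex.normSq_apply, Complex.normSq_apply, Complex.normSq_apply,
    Complex.normSq_apply, Complex.sub_re, Complex.sub_im, Complex.add_re, Complex.add_im]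
  ring

theorem parallel4 (S b : ℂ) : ‖S - b‖ ^ 4 + ‖S + b‖ ^ 4 ≤
    2 * ‖S‖ ^ 4 + 12 * ‖S‖ ^ 2 * ‖b‖ ^ 2 + 2 * ‖b‖ ^ 4 := by
  have e : ∀ z : ℂ, ‖z‖ ^ 4 = (Complex.normSq z) ^ 2 := by
    intro z
    rw [Complex.normSq_eq_norm_sq]; ring
  rw [e, e, e, e, ← Complex.normSq_eq_norm_sq, ← Complex.normSq_eq_norm_sq]
  simp only [Complex.normSq_apply, Complex.sub_re, Complex.sub_im, Complex.add_re, Complex.add_im]
  nlinarith [sq_nonneg (S.re * b.im - S.im * b.re)]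

theorem second_moment (s : Finset ℕ) (b : ℕ → ℂ) :
    ∑ u ∈ s.powerset, ‖sg s u b‖ ^ 2 = 2 ^ s.card * ∑ m ∈ s, ‖b m‖ ^ 2 := by
  induction s using Finset.induction_on with
  | empty => simp [sg]
  | insert a s ha ih =>
    rw [Finset.sum_powerset_insert ha, Finset.card_insert_of_notMem ha, Finset.sum_insert ha,
      ← Finset.sum_add_distrib]
    have h1 : ∀ u ∈ s.powerset, ‖sg (insert a s) u b‖ ^ 2 + ‖sg (insert a s) (insert a u) b‖ ^ 2 =
        2 * ‖sg s u b‖ ^ 2 + 2 * ‖b a‖ ^ 2 := by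
      intro u hu
      rw [Finset.mem_powerset] at hu
      obtain ⟨e1, e2⟩ := sg_insert s u b a ha hu
      rw [e1, e2, parallel2]
    rw [Finset.sum_congr rfl h1, Finset.sum_add_distrib, ← Finset.mul_sum, ih,
      Finset.sum_const, Finset.card_powerset, nsmul_eq_mul]
    push_cast
    ring

theorem fourth_moment (s : Finset ℕ) (b : ℕ → ℂ) :
    ∑ u ∈ s.powerset, ‖sg s u b‖ ^ 4 ≤ 3 * 2 ^ s.card * (∑ m ∈ s, ‖b m‖ ^ 2) ^ 2 := by
  induction s using Finset.induction_on with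
  | empty => simp [sg]
  | insert a s ha ih =>
    rw [Finset.sum_powerset_insert ha, Finset.card_insert_of_notMem ha, Finset.sum_insert ha,
      ← Finset.sum_add_distrib]
    have h1 : ∀ u ∈ s.powerset, ‖sg (insert a s) u b‖ ^ 4 + ‖sg (insert a s) (insert a u) b‖ ^ 4 ≤
        2 * ‖sg s u b‖ ^ 4 + 12 * ‖b a‖ ^ 2 * ‖sg s u b‖ ^ 2 + 2 * ‖b a‖ ^ 4 := by
      intro u hu
      rw [Finset.mem_powerset] at hu
      obtain ⟨e1, e2⟩ := sg_insert s u b a ha hu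
      rw [e1, e2]
      have := parallel4 (sg s u b) (b a)
      linarith
    refine (Finset.sum_le_sum h1).trans ?_
    rw [Finset.sum_add_distrib, Finset.sum_add_distrib, ← Finset.mul_sum, ← Finset.mul_sum,
      second_moment, Finset.sum_const, Finset.card_powerset, nsmul_eq_mul]
    push_cast
    set σ := ∑ m ∈ s, ‖b m‖ ^ 2
    have h2 : (0:ℝ) < 2 ^ s.card := by positivity
    have h3 : (0:ℝ) ≤ ‖b a‖ ^ 4 := by positivity
    have h4 : 2 ^ s.card * (2 * ‖b a‖ ^ 4) ≤ 2 ^ s.card * (6 * ‖b a‖ ^ 4) := by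
      apply mul_le_mul_of_nonneg_left _ h2.le
      linarith
    calc 2 * ∑ u ∈ s.powerset, ‖sg s u b‖ ^ 4 + 12 * ‖b a‖ ^ 2 * (2 ^ s.card * σ) +
        2 ^ s.card * (2 * ‖b a‖ ^ 4)
        ≤ 2 * (3 * 2 ^ s.card * σ ^ 2) + 12 * ‖b a‖ ^ 2 * (2 ^ s.card * σ) +
          2 ^ s.card * (6 * ‖b a‖ ^ 4) := by linarith
      _ = 3 * 2 ^ (s.card + 1) * (‖b a‖ ^ 2 + σ) ^ 2 := by rw [pow_succ]; ring

theorem cubic_bound (s σ : ℝ) (hs : 0 ≤ s) (hσ : 0 < σ) :
    s ^ 2 / σ - (4 / 27) * (s ^ 4 / σ ^ 3) ≤ s := by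
  obtain ⟨u, rfl⟩ : ∃ u, s = u * σ := ⟨s / σ, by field_simp⟩
  have hu : 0 ≤ u := by
    by_contra h
    rw [not_le] at h
    have := mul_neg_of_neg_of_pos h hσ
    linarith
  have e : (u * σ) ^ 2 / σ - (4 / 27) * ((u * σ) ^ 4 / σ ^ 3) = (u ^ 2 - (4 / 27) * u ^ 4) * σ := by
    field_simp
  rw [e]
  apply mul_le_mul_of_nonneg_right _ hσ.le
  have h1 : 0 ≤ (u - 3 / 2) ^ 2 * (u + 3) := by positivity
  nlinarith [mul_nonneg hu h1]

/-- Khintchine inequality with constant 5/9 -/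
theorem khintchine (s : Finset ℕ) (b : ℕ → ℂ) :
    (5 / 9) * 2 ^ s.card * Real.sqrt (∑ m ∈ s, ‖b m‖ ^ 2) ≤ ∑ u ∈ s.powerset, ‖sg s u b‖ := by
  set Q := ∑ m ∈ s, ‖b m‖ ^ 2 with hQ
  have hQ0 : 0 ≤ Q := Finset.sum_nonneg fun _ _ => by positivity
  rcases eq_or_lt_of_le hQ0 with h | h
  · rw [← h, Real.sqrt_zero, mul_zero]
    exact Finset.sum_nonneg fun _ _ => norm_nonneg _
  · set σ := Real.sqrt Q with hσ
    have hσ0 : 0 < σ := Real.sqrt_pos.mpr h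
    have hσ2 : σ ^ 2 = Q := Real.sq_sqrt hQ0
    have h1 : ∑ u ∈ s.powerset, (‖sg s u b‖ ^ 2 / σ - (4 / 27) * (‖sg s u b‖ ^ 4 / σ ^ 3)) ≤
        ∑ u ∈ s.powerset, ‖sg s u b‖ :=
      Finset.sum_le_sum fun u _ => cubic_bound _ _ (norm_nonneg _) hσ0
    rw [Finset.sum_sub_distrib, ← Finset.sum_div, ← Finset.mul_sum, ← Finset.sum_div,
      second_moment] at h1
    have h2 := fourth_moment s b
    rw [← hQ, ← hσ2] at h1
    rw [← hQ, ← hσ2] at h2
    have h3 : (∑ u ∈ s.powerset, ‖sg s u b‖ ^ 4) / σ ^ 3 ≤ 3 * 2 ^ s.card * σ := by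
      rw [div_le_iff₀ (by positivity)]
      refine h2.trans (le_of_eq ?_)
      ring
    have h4 : 2 ^ s.card * σ ^ 2 / σ = 2 ^ s.card * σ := by
      field_simp
    rw [h4] at h1
    linarith

end Pool.Agent.KS62.SXKhin
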