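import Mathlib

/-!
Schreier families on the positive integers, and systems of successive averages (special convex
combinations) adapted to them.
-/

open Finset

namespace Pool.Agent.KS62.SX

/-- The Schreier families: `Sch 0` consists of the sets with at most one element; a set is in
`Sch (n + 1)` if it is a union `E 1 ∪ ... ∪ E k` of nonempty sets of `Sch n` with
`E 1 < ... < E k` and `k ≤ min (E 1)` (`k = 0` gives the empty set). -/
def Sch : ℕ → Set (Finset ℕ+)
  | 0 => {E | E.card ≤ 1}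
  | n + 1 => {E | ∃ (k : ℕ) (F : Fin k → Finset ℕ+),
      (∀ i, F i ∈ Sch n ∧ (F i).Nonempty) ∧
      (∀ i j, i < j → ∀ a ∈ F i, ∀ b ∈ F j, a < b) ∧
      (∀ i, ∀ a ∈ F i, k ≤ (a : ℕ)) ∧ E = Finset.univ.biUnion F}

theorem empty_mem : ∀ n, (∅ : Finset ℕ+) ∈ Sch n
  | 0 => by simp [Sch]
  | n + 1 => ⟨0, fun _ => ∅, fun i => i.elim0, fun i => i.elim0, fun i => i.elim0, by simp⟩

theorem singleton_mem : ∀ n j, ({j} : Finset ℕ+) ∈ Sch n
  | 0, j => by simp [Sch]
  | n + 1, j => ⟨1, fun _ => {j}, fun _ => ⟨singleton_mem n j, by simp⟩,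
      fun i i' h => by omega, fun _ a _ => a.pos, by simp⟩

/-- An average: a convex combination of basis vectors. -/
structure IsAv (w : ℕ+ →₀ ℝ) : Prop where
  nonneg : ∀ j, 0 ≤ w j
  sum_one : ∑ j ∈ w.support, w j = 1

theorem IsAv.nonempty {w : ℕ+ →₀ ℝ} (h : IsAv w) : w.support.Nonempty := by
  rw [Finset.nonempty_iff_ne_empty]
  intro h0
  have := h.sum_one
  rw [h0, sum_empty] at this
  norm_num at this

theorem IsAv.mass_le {w : ℕ+ →₀ ℝ} (h : IsAv w) (F : Finset ℕ+) : ∑ j ∈ F, w j ≤ 1 := by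
  rw [← h.sum_one]
  have h1 : ∑ j ∈ F, w j = ∑ j ∈ F ∩ w.support, w j := by
    symm
    apply Finset.sum_subset inter_subset_left
    intro x hx hx'
    by_contra h2
    exact hx' (mem_inter.mpr ⟨hx, Finsupp.mem_support_iff.mpr h2⟩)
  rw [h1]
  exact sum_le_sum_of_subset_of_nonneg inter_subset_right fun j _ _ => h.nonneg j

theorem exists_of_mass_pos {w : ℕ+ →₀ ℝ} {F : Finset ℕ+} (h : 0 < ∑ j ∈ F, w j) :
    ∃ j ∈ F, j ∈ w.support := by
  by_contra hc
  push Not at hc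
  have : ∑ j ∈ F, w j = 0 := sum_eq_zero fun j hj => by
    have := hc j hj
    rwa [Finsupp.mem_support_iff, not_not] at this
  linarith

/-- The key averages at level `n`. -/
structure Good (n : ℕ) (N : Set ℕ+) (q : ℕ+) (η : ℝ) (w : ℕ+ →₀ ℝ) : Prop where
  av : IsAv w
  sub : ∀ j ∈ w.support, j ∈ N ∧ q < j
  mem : w.support ∈ Sch n
  small : ∀ F ∈ Sch n, (∃ j ∈ F, j ≤ q) → ∑ j ∈ F, w j ≤ η

theorem sum_le_aux (a c : ℕ → ℝ) (C : ℝ) (hC : 0 ≤ C) (h0 : ∀ l, 0 ≤ a l) (h1 : ∀ l, a l ≤ C)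
    (hc : ∀ l, 0 ≤ c l) (h : ∀ l l', l < l' → 0 < a l → a l' ≤ c l') (r : ℕ) :
    ∑ l ∈ range r, a l ≤ C + ∑ l ∈ range r, c l := by
  induction r with
  | zero => simpa using hC
  | succ r ih =>
    rw [sum_range_succ, sum_range_succ]
    by_cases hz : ∃ l < r, 0 < a l
    · obtain ⟨l, hl, hl0⟩ := hz
      have := h l r hl hl0
      linarith
    · push Not at hz
      have h2 : ∑ l ∈ range r, a l = 0 := sum_eq_zero fun l hl =>
        le_antisymm (hz l (mem_range.mp hl)) (h0 l)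
      have h3 : 0 ≤ ∑ l ∈ range r, c l := sum_nonneg fun l _ => hc l
      have h4 := h1 r
      have h5 := hc r
      linarith

/-- average of averages -/
noncomputable def avg (u : ℕ → (ℕ+ →₀ ℝ)) (r : ℕ) : ℕ+ →₀ ℝ :=
  (1 / (r : ℝ)) • ∑ l ∈ range r, u l

theorem avg_apply (u : ℕ → (ℕ+ →₀ ℝ)) (r : ℕ) (j : ℕ+) :
    avg u r j = (1 / (r : ℝ)) * ∑ l ∈ range r, u l j := by
  simp [avg, Finsupp.smul_apply, Finsupp.finsetSum_apply]

theorem avg_support {u : ℕ → (ℕ+ →₀ ℝ)} (hu : ∀ l, IsAv (u l)) {r : ℕ} (hr : 0 < r) (j : ℕ+) :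
    j ∈ (avg u r).support ↔ ∃ l < r, j ∈ (u l).support := by
  rw [Finsupp.mem_support_iff, avg_apply]
  have hr' : (0 : ℝ) < r := by exact_mod_cast hr
  have hr2 : (1 / (r : ℝ)) ≠ 0 := by positivity
  rw [mul_ne_zero_iff, and_iff_right hr2, Ne,
    Finset.sum_eq_zero_iff_of_nonneg (fun l _ => (hu l).nonneg j)]
  push Not
  simp only [mem_range, Finsupp.mem_support_iff]

theorem avg_mass (u : ℕ → (ℕ+ →₀ ℝ)) (r : ℕ) (F : Finset ℕ+) :
    ∑ j ∈ F, avg u r j = (1 / (r : ℝ)) * ∑ l ∈ range r, ∑ j ∈ F, u l j := by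
  simp_rw [avg_apply]
  rw [← mul_sum, sum_comm]

theorem mass_eq_one {w : ℕ+ →₀ ℝ} (hw : IsAv w) {F : Finset ℕ+} (h : w.support ⊆ F) :
    ∑ j ∈ F, w j = 1 := by
  rw [← hw.sum_one]
  symm
  apply Finset.sum_subset h
  intro x _ hx
  rwa [Finsupp.mem_support_iff, not_not] at hx

theorem avg_isAv {u : ℕ → (ℕ+ →₀ ℝ)} (hu : ∀ l, IsAv (u l)) {r : ℕ} (hr : 0 < r) :
    IsAv (avg u r) := by
  have hr' : (0 : ℝ) < r := by exact_mod_cast hr
  constructor
  · intro j
    rw [avg_apply]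
    have : 0 ≤ ∑ l ∈ range r, u l j := sum_nonneg fun l _ => (hu l).nonneg j
    positivity
  · rw [avg_mass]
    have : ∀ l ∈ range r, ∑ j ∈ (avg u r).support, u l j = 1 := fun l hl => by
      apply mass_eq_one (hu l)
      intro j hj
      exact (avg_support hu hr j).mpr ⟨l, mem_range.mp hl, hj⟩
    rw [sum_congr rfl this]
    simp only [sum_const, card_range, nsmul_eq_mul, mul_one]
    field_simp

/-- a block of `L` averages at level `n + 1` -/
theorem block (n : ℕ) (N : Set ℕ+)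
    (hB : ∀ q : ℕ+, ∀ η : ℝ, 0 < η → ∃ u, Good n N q η u) (q : ℕ+) (η : ℝ) (hη : 0 < η) (L : ℕ) :
    ∃ w : ℕ → (ℕ+ →₀ ℝ), (∀ i, IsAv (w i)) ∧ (∀ i, ∀ j ∈ (w i).support, j ∈ N ∧ q < j) ∧
      (∀ i i', i < i' → ∀ a ∈ (w i).support, ∀ b ∈ (w i').support, a < b) ∧
      (range L).biUnion (fun i => (w i).support) ∈ Sch (n + 1) ∧
      (∀ i, ∀ F ∈ Sch (n + 1), (∃ j ∈ F, j ≤ q) → ∑ j ∈ F, w i j ≤ η) := by
  classical
  set η' : ℝ := η / q with hη'
  have hq0 : (0 : ℝ) < ((q : ℕ) : ℝ) := by exact_mod_cast q.pos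
  have hη'0 : 0 < η' := by positivity
  obtain ⟨r, hr⟩ := exists_nat_gt (2 / η')
  have hr0' : (0 : ℝ) < r := lt_trans (by positivity) hr
  have hr0 : 0 < r := by exact_mod_cast hr0'
  have hr1 : 1 / (r : ℝ) ≤ η' / 2 := by
    rw [div_lt_iff₀ hη'0] at hr
    rw [div_le_div_iff₀ hr0' (by norm_num)]
    linarith
  choose U hU using fun q => hB q (η' / 2) (by positivity)
  -- the sequence of thresholds
  let nx : ℕ+ → ℕ+ := fun q => q + (U q).support.sup id
  let Q : ℕ → ℕ+ := fun l => nx^[l] (q + ⟨L * r + 1, by omega⟩)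
  have hQs : ∀ l, Q (l + 1) = Q l + (U (Q l)).support.sup id := fun l => by
    show nx^[l + 1] _ = _
    rw [Function.iterate_succ_apply']
  have hQm : StrictMono Q := strictMono_nat_of_lt_succ fun l => by
    rw [hQs]
    exact PNat.lt_add_right _ _
  have hsup : ∀ l, ∀ a ∈ (U (Q l)).support, a < Q (l + 1) := fun l a ha => by
    rw [hQs]
    have : a ≤ (U (Q l)).support.sup id := Finset.le_sup (f := id) ha
    exact lt_of_le_of_lt this (PNat.lt_add_left _ _)
  set u : ℕ → (ℕ+ →₀ ℝ) := fun l => U (Q l) with hu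
  have huG : ∀ l, Good n N (Q l) (η' / 2) (u l) := fun l => hU (Q l)
  have huav : ∀ l, IsAv (u l) := fun l => (huG l).av
  have hQq : ∀ l, q < Q l := fun l => by
    refine lt_of_lt_of_le ?_ (hQm.monotone (Nat.zero_le l))
    show q < q + _
    exact PNat.lt_add_right _ _
  have hQL : ∀ l, L * r < (Q l : ℕ) := fun l => by
    refine lt_of_lt_of_le ?_ (show ((Q 0 : ℕ+) : ℕ) ≤ (Q l : ℕ) from hQm.monotone (Nat.zero_le l))
    show L * r < ((q + _ : ℕ+) : ℕ)
    rw [PNat.add_coe, PNat.mk_coe]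
    omega
  have hord : ∀ l l', l < l' → ∀ a ∈ (u l).support, ∀ b ∈ (u l').support, a < b := by
    intro l l' hl a ha b hb
    have h1 := hsup l a ha
    have h2 : Q (l + 1) ≤ Q l' := hQm.monotone hl
    have h3 := ((huG l').sub b hb).2
    exact lt_of_lt_of_le h1 (h2.trans h3.le)
  have hsm : ∀ l l', l < l' → ∀ G ∈ Sch n, 0 < ∑ j ∈ G, u l j → ∑ j ∈ G, u l' j ≤ η' / 2 := by
    intro l l' hl G hG h0
    obtain ⟨j, hjG, hj⟩ := exists_of_mass_pos h0
    refine (huG l').small G hG ⟨j, hjG, ?_⟩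
    exact ((hsup l j hj).trans_le (hQm.monotone hl)).le
  set w : ℕ → (ℕ+ →₀ ℝ) := fun i => avg (fun l => u (i * r + l)) r with hw
  have hws : ∀ i j, j ∈ (w i).support ↔ ∃ l < r, j ∈ (u (i * r + l)).support := fun i j =>
    avg_support (fun l => huav _) hr0 j
  have hwG : ∀ i, ∀ G ∈ Sch n, ∑ j ∈ G, w i j ≤ η' := by
    intro i G hG
    rw [hw]
    simp only
    rw [avg_mass]
    have h1 := sum_le_aux (fun l => ∑ j ∈ G, u (i * r + l) j) (fun _ => η' / 2) 1 zero_le_one
      (fun l => sum_nonneg fun j _ => (huav _).nonneg j) (fun l => (huav _).mass_le G)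
      (fun _ => by positivity) (fun l l' hl h0 => hsm _ _ (by omega) G hG h0) r
    rw [sum_const, card_range, nsmul_eq_mul] at h1
    calc 1 / (r : ℝ) * ∑ l ∈ range r, ∑ j ∈ G, u (i * r + l) j
        ≤ 1 / (r : ℝ) * (1 + r * (η' / 2)) := mul_le_mul_of_nonneg_left h1 (by positivity)
      _ = 1 / (r : ℝ) + η' / 2 := by field_simp
      _ ≤ η' := by linarith
  refine ⟨w, fun i => avg_isAv (fun l => huav _) hr0, ?_, ?_, ?_, ?_⟩
  · intro i j hj
    obtain ⟨l, -, hl⟩ := (hws i j).mp hj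
    have := (huG _).sub j hl
    exact ⟨this.1, (hQq _).trans this.2⟩
  · intro i i' hi a ha b hb
    obtain ⟨l, hl, hl'⟩ := (hws i a).mp ha
    obtain ⟨m, hm, hm'⟩ := (hws i' b).mp hb
    refine hord _ _ ?_ a hl' b hm'
    have : (i + 1) * r ≤ i' * r := Nat.mul_le_mul_right r hi
    have h2 : (i + 1) * r = i * r + r := by ring
    omega
  · refine ⟨L * r, fun p => (u p).support, fun p => ⟨(huG _).mem, (huav _).nonempty⟩,
      fun p p' hp => hord _ _ hp, fun p a ha => ?_, ?_⟩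
    · have := ((huG _).sub a ha).2
      have h2 := hQL p
      have h3 : ((Q p : ℕ+) : ℕ) < (a : ℕ) := this
      omega
    · ext j
      simp only [mem_biUnion, mem_range, mem_univ, true_and]
      constructor
      · rintro ⟨i, hi, hj⟩
        obtain ⟨l, hl, hl'⟩ := (hws i j).mp hj
        refine ⟨⟨i * r + l, ?_⟩, hl'⟩
        have : (i + 1) * r ≤ L * r := Nat.mul_le_mul_right r hi
        have h2 : (i + 1) * r = i * r + r := by ring
        omega
      · rintro ⟨p, hp⟩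
        refine ⟨p / r, Nat.div_lt_of_lt_mul (lt_of_lt_of_eq p.2 (mul_comm L r)), (hws _ _).mpr
          ⟨p % r, Nat.mod_lt _ hr0, ?_⟩⟩
        rw [Nat.div_add_mod']
        exact hp
  · rintro i F ⟨k, G, hG, hGo, hGk, rfl⟩ ⟨j, hj, hjq⟩
    rw [mem_biUnion] at hj
    obtain ⟨t, -, hjt⟩ := hj
    have hk : k ≤ (q : ℕ) := (hGk t j hjt).trans hjq
    rw [sum_biUnion]
    · calc ∑ t : Fin k, ∑ j ∈ G t, w i j ≤ ∑ _t : Fin k, η' :=
            sum_le_sum fun t _ => hwG i (G t) (hG t).1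
        _ = k * η' := by simp
        _ ≤ q * η' := by
            apply mul_le_mul_of_nonneg_right _ hη'0.le
            exact_mod_cast hk
        _ = η := by rw [hη']; field_simp
    · intro s _ t _ hst
      rcases lt_or_gt_of_ne hst with h | h
      · exact Finset.disjoint_left.mpr fun a ha hb => lt_irrefl a (hGo s t h a ha a hb)
      · exact Finset.disjoint_left.mpr fun a ha hb => lt_irrefl a (hGo t s h a hb a ha)

theorem exists_good (N : Set ℕ+) (hN : N.Infinite) :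
    ∀ n (q : ℕ+) (η : ℝ), 0 < η → ∃ u, Good n N q η u := by
  intro n
  induction n with
  | zero =>
    intro q η hη
    obtain ⟨j, hj, hqj⟩ := hN.exists_gt q
    refine ⟨Finsupp.single j 1, ⟨⟨fun i => ?_, ?_⟩, ?_, ?_, ?_⟩⟩
    · rw [Finsupp.single_apply]; split_ifs <;> norm_num
    · rw [Finsupp.support_single _ one_ne_zero]; simp
    · intro i hi
      rw [Finsupp.support_single _ one_ne_zero, mem_singleton] at hi
      rw [hi]; exact ⟨hj, hqj⟩
    · rw [Finsupp.support_single _ one_ne_zero]; exact singleton_mem 0 j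
    · rintro F hF ⟨i, hi, hiq⟩
      have hF' : F.card ≤ 1 := hF
      have : ∑ l ∈ F, (Finsupp.single j (1 : ℝ)) l = 0 := by
        apply sum_eq_zero
        intro l hl
        have hli : l = i := Finset.card_le_one.mp hF' l hl i hi
        rw [Finsupp.single_apply, if_neg]
        rintro rfl
        exact absurd hqj (not_lt.mpr (hli ▸ hiq))
      rw [this]; exact hη.le
  | succ n ih =>
    intro q η hη
    obtain ⟨w, h1, h2, h3, h4, h5⟩ := block n N ih q η hη 1
    refine ⟨w 0, ⟨h1 0, h2 0, ?_, h5 0⟩⟩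
    simpa using h4

/-- Index set of the blocks: block `m` has `m + 1` members. -/
abbrev Idx := (m : ℕ) × Fin (m + 1)

/-- A system of averages. -/
structure Sys (n : ℕ) (N : Set ℕ+) (w : Idx → (ℕ+ →₀ ℝ)) : Prop where
  av : ∀ I, IsAv (w I)
  sub : ∀ I, ∀ j ∈ (w I).support, j ∈ N
  disj : ∀ I I', I ≠ I' → Disjoint (w I).support (w I').support
  mem : ∀ m, (univ : Finset (Fin (m + 1))).biUnion (fun i => (w ⟨m, i⟩).support) ∈ Sch n
  small : ∀ I I' : Idx, I.1 < I'.1 → ∀ F ∈ Sch n, (∃ j ∈ F, j ∈ (w I).support) →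
    ∑ j ∈ F, w I' j ≤ (1 / 2) ^ I'.1

theorem exists_sys (n : ℕ) (N : Set ℕ+) (hN : N.Infinite) : ∃ w, Sys (n + 1) N w := by
  classical
  have hB := fun (m : ℕ) (q : ℕ+) => block n N (exists_good N hN n) q ((1 / 2) ^ m) (by positivity)
    (m + 1)
  choose W hav hsub hord hmem hsm using hB
  let nx : ℕ → ℕ+ → ℕ+ := fun m q => q + ((range (m + 1)).biUnion fun i => (W m q i).support).sup id
  let Q : ℕ → ℕ+ := fun m => Nat.rec 1 (fun m q => nx m q) m
  have hQs : ∀ m, Q (m + 1) = nx m (Q m) := fun m => rfl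
  have hQm : StrictMono Q := strictMono_nat_of_lt_succ fun l => by
    rw [hQs]
    exact PNat.lt_add_right _ _
  have hsup : ∀ m, ∀ i < m + 1, ∀ a ∈ (W m (Q m) i).support, a < Q (m + 1) := fun m i hi a ha => by
    rw [hQs]
    have : a ≤ ((range (m + 1)).biUnion fun i => (W m (Q m) i).support).sup id :=
      Finset.le_sup (f := id) (mem_biUnion.mpr ⟨i, mem_range.mpr hi, ha⟩)
    exact lt_of_le_of_lt this (PNat.lt_add_left _ _)
  have hblk : ∀ I I' : Idx, I.1 < I'.1 → ∀ a ∈ (W I.1 (Q I.1) I.2).support, a ≤ Q I'.1 := by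
    intro I I' h a ha
    exact ((hsup I.1 I.2 I.2.2 a ha).trans_le (hQm.monotone h)).le
  refine ⟨fun I => W I.1 (Q I.1) I.2, ⟨fun I => hav _ _ _, fun I j hj => (hsub _ _ _ j hj).1,
    ?_, ?_, ?_⟩⟩
  · have key : ∀ I I' : Idx, I.1 < I'.1 →
        Disjoint (W I.1 (Q I.1) I.2).support (W I'.1 (Q I'.1) I'.2).support := by
      intro I I' h
      refine Finset.disjoint_left.mpr fun a ha hb => ?_
      have h1 := hblk I I' h a ha
      have h2 := (hsub _ _ _ a hb).2
      exact absurd h2 (not_lt.mpr h1)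
    intro I I' hne
    rcases lt_trichotomy I.1 I'.1 with h | h | h
    · exact key I I' h
    · obtain ⟨m, i⟩ := I
      obtain ⟨m', i'⟩ := I'
      simp only at h
      subst h
      have hii : i ≠ i' := fun h => hne (by rw [h])
      have hii' : (i : ℕ) ≠ i' := fun h => hii (Fin.ext h)
      rcases lt_or_gt_of_ne hii' with h | h
      · exact Finset.disjoint_left.mpr fun a ha hb => lt_irrefl a (hord m (Q m) _ _ h a ha a hb)
      · exact Finset.disjoint_left.mpr fun a ha hb => lt_irrefl a (hord m (Q m) _ _ h a hb a ha)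
    · exact (key I' I h).symm
  · intro m
    have h := hmem m (Q m)
    have e : (univ : Finset (Fin (m + 1))).biUnion (fun i => (W m (Q m) i).support)
        = (range (m + 1)).biUnion (fun i => (W m (Q m) i).support) := by
      ext j
      simp only [mem_biUnion, mem_univ, true_and, mem_range]
      constructor
      · rintro ⟨i, hi⟩; exact ⟨i, i.2, hi⟩
      · rintro ⟨i, hi, hj⟩; exact ⟨⟨i, hi⟩, hj⟩
    simp only
    rw [e]
    exact h
  · rintro I I' h F hF ⟨j, hjF, hj⟩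
    exact hsm _ _ _ F hF ⟨j, hjF, hblk I I' h j hj⟩

end Pool.Agent.KS62.SX
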