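import Pool.Agent.KS6_2.SX.Block
import Pool.Agent.KS6_2.SX.Approx

/-!
An isomorphic copy of `ℓ_∞` in the strictly singular operators, at full distance from the
operators which factor through `C₀(K)`-spaces.
-/

open Finset Filter Topology
open scoped ZeroAtInfty ENNReal

set_option maxHeartbeats 400000

namespace Pool.Agent.KS62.SX

variable {𝕜 : Type} [RCLike 𝕜]

/-- multiplication of a finitely supported sequence by a sequence -/
noncomputable def mulM (m : ℕ+ → 𝕜) : (ℕ+ →₀ 𝕜) →ₗ[𝕜] (ℕ+ →₀ 𝕜) :=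
  Finsupp.linearCombination 𝕜 fun j => Finsupp.single j (m j)

theorem mulM_apply (m : ℕ+ → 𝕜) (x : ℕ+ →₀ 𝕜) (j : ℕ+) : mulM m x j = m j * x j := by
  classical
  induction x using Finsupp.induction_linear with
  | zero => simp
  | add f g hf hg => rw [map_add, Finsupp.add_apply, hf, hg, Finsupp.add_apply, mul_add]
  | single a b =>
    unfold mulM
    rw [Finsupp.linearCombination_single, Finsupp.smul_apply, Finsupp.single_apply,
      Finsupp.single_apply]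
    split_ifs with h
    · subst h; rw [smul_eq_mul, mul_comm]
    · simp

theorem mulM_nrm {m : ℕ+ → 𝕜} {C : ℝ} (hm : ∀ j, ‖m j‖ ≤ C) (n : ℕ) (x : ℕ+ →₀ 𝕜) :
    nrm n (mulM m x) ≤ C * nrm n x := by
  have hC : 0 ≤ C := (norm_nonneg _).trans (hm 1)
  apply nrm_le
  intro E hE
  calc ∑ j ∈ E, ‖mulM m x j‖ ≤ ∑ j ∈ E, C * ‖x j‖ := sum_le_sum fun j _ => by
        rw [mulM_apply, norm_mul]; exact mul_le_mul_of_nonneg_right (hm j) (norm_nonneg _)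
    _ = C * ∑ j ∈ E, ‖x j‖ := by rw [mul_sum]
    _ ≤ _ := mul_le_mul_of_nonneg_left (le_nrm x hE) hC

theorem mulM_sq2 {m : ℕ+ → 𝕜} {C : ℝ} (hm : ∀ j, ‖m j‖ ≤ C) (x : ℕ+ →₀ 𝕜) :
    sq2 (mulM m x) ≤ C ^ 2 * sq2 x := by
  have hC : 0 ≤ C := (norm_nonneg _).trans (hm 1)
  calc sq2 (mulM m x) = ∑ j ∈ (mulM m x).support, ‖mulM m x j‖ ^ 2 := rfl
    _ ≤ ∑ j ∈ (mulM m x).support, C ^ 2 * ‖x j‖ ^ 2 := sum_le_sum fun j _ => by
        rw [mulM_apply, norm_mul, mul_pow]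
        exact mul_le_mul_of_nonneg_right (pow_le_pow_left₀ (norm_nonneg _) (hm j) 2)
          (by positivity)
    _ = C ^ 2 * ∑ j ∈ (mulM m x).support, ‖x j‖ ^ 2 := by rw [mul_sum]
    _ ≤ _ := mul_le_mul_of_nonneg_left (sum_sq_le x _) (by positivity)

theorem mulM_single (m : ℕ+ → 𝕜) (j : ℕ+) :
    mulM m (Finsupp.single j 1) = m j • Finsupp.single j 1 := by
  unfold mulM
  rw [Finsupp.linearCombination_single, one_smul, Finsupp.smul_single, smul_eq_mul, mul_one]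

namespace Dat

variable (d : Dat)

open Classical in
/-- the sequence which takes the value `a (φ k)` on the `k`-th group and vanishes elsewhere -/
noncomputable def mu (φ : ℕ → ℕ) (a : ℕ → 𝕜) (j : ℕ+) : 𝕜 :=
  if h : ∃ k, j ∈ d.I k then a (φ h.choose) else 0

theorem mu_of_mem (φ : ℕ → ℕ) (a : ℕ → 𝕜) {k : ℕ} {j : ℕ+} (hj : j ∈ d.I k) :
    d.mu φ a j = a (φ k) := by
  classical
  have h : ∃ k, j ∈ d.I k := ⟨k, hj⟩
  unfold mu
  rw [dif_pos h]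
  have hc : h.choose = k := by
    by_contra hne
    exact Finset.disjoint_left.mp (d.disj _ _ hne) h.choose_spec hj
  rw [hc]

theorem mu_norm (φ : ℕ → ℕ) (a : ℕ → 𝕜) {C : ℝ} (ha : ∀ i, ‖a i‖ ≤ C) (j : ℕ+) :
    ‖d.mu φ a j‖ ≤ C := by
  unfold mu
  split_ifs
  · exact ha _
  · rw [norm_zero]; exact (norm_nonneg _).trans (ha 0)

theorem mu_add (φ : ℕ → ℕ) (a b : ℕ → 𝕜) (j : ℕ+) :
    d.mu φ (fun i => a i + b i) j = d.mu φ a j + d.mu φ b j := by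
  unfold mu
  split_ifs
  · rfl
  · rw [add_zero]

theorem mu_smul (φ : ℕ → ℕ) (c : 𝕜) (a : ℕ → 𝕜) (j : ℕ+) :
    d.mu φ (fun i => c * a i) j = c * d.mu φ a j := by
  unfold mu
  split_ifs
  · rfl
  · rw [mul_zero]

/-- the operator of `TT.lean` after multiplication by a sequence -/
noncomputable def Wop (n : ℕ) (w : Idx → (ℕ+ →₀ ℝ)) (m : ℕ+ → 𝕜) : X 𝕜 n →L[𝕜] X 𝕜 n :=
  ext n (((J w).comp d.D).comp (mulM m))

variable {n : ℕ} (hn : 1 ≤ n) {N : Set ℕ+} {w : Idx → (ℕ+ →₀ ℝ)} (hw : Sys n N w)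

include hn hw in
theorem W_le {m : ℕ+ → 𝕜} {C : ℝ} (hm : ∀ j, ‖m j‖ ≤ C) (x : ℕ+ →₀ 𝕜) :
    nrm n (((J w).comp d.D).comp (mulM m) x) ≤ 9 * C * nrm n x := by
  have h1 := d.JD_le' hn hw (mulM m x)
  have h2 := mulM_nrm hm n x
  rw [LinearMap.comp_apply]
  linarith

include hn hw in
theorem W_inc {m : ℕ+ → 𝕜} {C : ℝ} (hm : ∀ j, ‖m j‖ ≤ C) (x : ℕ+ →₀ 𝕜) :
    d.Wop n w m (inc 𝕜 n x) = inc 𝕜 n (J w (d.D (mulM m x))) :=
  ext_inc (d.W_le hn hw hm) x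

include hn hw in
theorem W_norm {m : ℕ+ → 𝕜} {C : ℝ} (hm : ∀ j, ‖m j‖ ≤ C) :
    ‖d.Wop n w m‖ ≤ 9 * C := by
  have hC : 0 ≤ C := (norm_nonneg _).trans (hm 1)
  refine ContinuousLinearMap.opNorm_le_bound _ (by positivity) fun x => ?_
  refine (inc_dense n).induction_on x
    (isClosed_le (d.Wop n w m).continuous.norm (continuous_const.mul continuous_norm)) fun x => ?_
  rw [d.W_inc hn hw hm, inc_norm, inc_norm]
  exact d.W_le hn hw hm x

include hn hw in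
theorem W_ss {m : ℕ+ → 𝕜} {C : ℝ} (hm : ∀ j, ‖m j‖ ≤ C) :
    StrictlySingular (d.Wop n w m) := by
  have hC : 0 ≤ C := (norm_nonneg _).trans (hm 1)
  refine strictlySingular_of_l2 hn _ (3 * (C + 1)) (by positivity) fun x => ?_
  rw [d.W_inc hn hw hm, inc_norm]
  have h1 := d.JD_le hw (mulM m x)
  have h2 := nrm_nonneg n (J w (d.D (mulM m x)))
  have h3 : (3 * Real.sqrt (sq2 (mulM m x))) ^ 2 = 3 ^ 2 * sq2 (mulM m x) := by
    rw [mul_pow, Real.sq_sqrt (sq2_nonneg _)]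
  have h4 := mulM_sq2 hm x
  have h5 := sq2_nonneg x
  calc nrm n (J w (d.D (mulM m x))) ^ 2 ≤ (3 * Real.sqrt (sq2 (mulM m x))) ^ 2 :=
        pow_le_pow_left₀ h2 h1 2
    _ = 3 ^ 2 * sq2 (mulM m x) := h3
    _ ≤ (3 * (C + 1)) ^ 2 * sq2 x := by
        have h6 : C ^ 2 * sq2 x ≤ (C + 1) ^ 2 * sq2 x :=
          mul_le_mul_of_nonneg_right (pow_le_pow_left₀ hC (by linarith) 2) h5
        nlinarith

include hn hw in
theorem W_add {m m' : ℕ+ → 𝕜} {C C' C'' : ℝ} (hm : ∀ j, ‖m j‖ ≤ C) (hm' : ∀ j, ‖m' j‖ ≤ C')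
    {m'' : ℕ+ → 𝕜} (hm'' : ∀ j, ‖m'' j‖ ≤ C'') (h : ∀ j, m'' j = m j + m' j) :
    d.Wop n w m'' = d.Wop n w m + d.Wop n w m' := by
  apply ext_unique
  intro x
  have h1 : mulM m'' x = mulM m x + mulM m' x := by
    apply Finsupp.ext
    intro j
    rw [Finsupp.add_apply, mulM_apply, mulM_apply, mulM_apply, h, add_mul]
  rw [_root_.add_apply, d.W_inc hn hw hm, d.W_inc hn hw hm', d.W_inc hn hw hm'', h1]
  simp only [map_add]

include hn hw in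
theorem W_smul {m : ℕ+ → 𝕜} {C C' : ℝ} (c : 𝕜) (hm : ∀ j, ‖m j‖ ≤ C)
    {m' : ℕ+ → 𝕜} (hm' : ∀ j, ‖m' j‖ ≤ C') (h : ∀ j, m' j = c * m j) :
    d.Wop n w m' = c • d.Wop n w m := by
  apply ext_unique
  intro x
  have h1 : mulM m' x = c • mulM m x := by
    apply Finsupp.ext
    intro j
    rw [Finsupp.smul_apply, mulM_apply, mulM_apply, h, smul_eq_mul, mul_assoc]
  rw [_root_.smul_apply, d.W_inc hn hw hm, d.W_inc hn hw hm', h1]
  simp only [map_smul]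

end Dat

/-- The operators which factor through the space `C₀(K)` for some locally compact Hausdorff
space `K`. -/
def factCK (𝕜 : Type) [RCLike 𝕜] (n : ℕ) : Set (Op 𝕜 n) :=
  {T | ∃ (K : Type) (_ : TopologicalSpace K) (_ : LocallyCompactSpace K) (_ : T2Space K)
    (A : C₀(K, 𝕜) →L[𝕜] X 𝕜 n) (B : X 𝕜 n →L[𝕜] C₀(K, 𝕜)), ∀ x, T x = A (B x)}

theorem factC0_subset (𝕜 : Type) [RCLike 𝕜] (n : ℕ) : factC0 𝕜 n ⊆ factCK 𝕜 n :=
  fun _ ⟨A, B, h⟩ => ⟨ℕ, inferInstance, inferInstance, inferInstance, A, B, h⟩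

theorem Dat.dist_le {n : ℕ} (hn : 1 ≤ n) {N : Set ℕ+} {w : Idx → (ℕ+ →₀ ℝ)}
    (hw : Sys n N w) (d : Dat) (c : ℕ → ℕ+ → ℝ) (hc0 : ∀ k j, 0 ≤ c k j)
    (hc : ∀ k, ∀ E ∈ Sch n, ∑ j ∈ E, c k j ≤ 1) (hcs : ∀ k, ∑ j ∈ d.I k, c k j = 2 ^ k / 3)
    (a : ℕ → 𝕜) {C : ℝ} (ha : ∀ i, ‖a i‖ ≤ C) (i : ℕ) (S : Op 𝕜 n)
    (hS : S ∈ closure (factCK 𝕜 n)) :
    ‖a i‖ ≤ ‖d.Wop n w (d.mu (fun k => (Nat.unpair k).1) a) - S‖ := by
  classical
  set φ : ℕ → ℕ := fun k => (Nat.unpair k).1 with hφ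
  set W : Op 𝕜 n := d.Wop n w (d.mu φ a) with hWdef
  refine le_of_forall_pos_le_add fun η hη => ?_
  rw [Metric.mem_closure_iff] at hS
  obtain ⟨S', ⟨K, i1, i2, i3, A, B, hAB⟩, hSS⟩ := hS (η / 4) (by positivity)
  rw [dist_eq_norm] at hSS
  have hA0 : 0 ≤ ‖A‖ := A.opNorm_nonneg
  have hB0 : 0 ≤ ‖B‖ := B.opNorm_nonneg
  have hδ0 : ‖W - S'‖ ≤ ‖W - S‖ + η / 4 := by
    have h1 : W - S' = (W - S) + (S - S') := by abel
    rw [h1]
    exact (norm_add_le _ _).trans (add_le_add le_rfl hSS.le)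
  -- choice of the group
  set Q : ℝ := 4 * (384 * ‖A‖ * (‖B‖ + 1)) / η with hQ
  have hQ0 : 0 ≤ Q := by positivity
  obtain ⟨m, hm⟩ := pow_unbounded_of_one_lt (3 * Q ^ 2) (one_lt_two (α := ℝ))
  set k : ℕ := Nat.pair i m with hk
  have hφk : φ k = i := by rw [hφ]; simp [hk]
  have hmk : m ≤ k := Nat.right_le_pair i m
  have hkQ : 3 * Q ^ 2 ≤ 2 ^ k := hm.le.trans (pow_le_pow_right₀ one_le_two hmk)
  set L : ℝ := 2 ^ k / 3 with hL
  have hL0 : 0 < L := by positivity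
  have hQL : Q ≤ Real.sqrt L := by
    apply Real.le_sqrt_of_sq_le
    rw [hL]; linarith
  -- approximation through c_0
  set ε : ℝ := η / (4 * (‖A‖ + 1)) with hε
  have hε0 : 0 < ε := by positivity
  have hAε : ‖A‖ * ε ≤ η / 4 := by
    rw [hε]
    calc ‖A‖ * (η / (4 * (‖A‖ + 1))) = (η / 4) * (‖A‖ / (‖A‖ + 1)) := by field_simp
      _ ≤ (η / 4) * 1 := by
          apply mul_le_mul_of_nonneg_left _ (by positivity)
          rw [div_le_one (by positivity)]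
          linarith
      _ = η / 4 := mul_one _
  obtain ⟨u, v, hu, hv, huv⟩ := cK_approx (𝕜 := 𝕜)
    ((d.I k).image fun j => B (inc 𝕜 n (Finsupp.single j 1))) hε0
  have hμ := fun j => d.mu_norm φ a ha j
  have hblock := d.block hn hw k (c k) (hc0 k) (hc k) (hcs k) hL0 (a i) W (by
      intro j hj
      rw [hWdef, d.W_inc hn hw hμ, d.T_inc hn hw, mulM_single, d.mu_of_mem φ a hj, hφk]
      simp only [map_smul]) (A ∘L v) (u ∘L B) (δ := ‖W - S'‖ + η / 4) (by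
      intro j hj
      have h1 : W (inc 𝕜 n (Finsupp.single j 1)) -
          (A ∘L v) ((u ∘L B) (inc 𝕜 n (Finsupp.single j 1))) =
          (W - S') (inc 𝕜 n (Finsupp.single j 1)) +
          A (B (inc 𝕜 n (Finsupp.single j 1)) - v (u (B (inc 𝕜 n (Finsupp.single j 1))))) := by
        rw [_root_.sub_apply, hAB, map_sub, ContinuousLinearMap.comp_apply,
          ContinuousLinearMap.comp_apply]
        abel
      rw [h1]
      refine (norm_add_le _ _).trans (add_le_add ?_ ?_)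
      · refine (ContinuousLinearMap.le_opNorm _ _).trans ?_
        rw [inc_norm]
        exact mul_le_of_le_one_right (norm_nonneg _) (nrm_single_le n j)
      · refine (A.le_opNorm _).trans (le_trans ?_ hAε)
        exact mul_le_mul_of_nonneg_left (huv _ (mem_image_of_mem _ hj)) hA0)
  have hAv : ‖A ∘L v‖ ≤ ‖A‖ := (A.opNorm_comp_le v).trans (mul_le_of_le_one_right hA0 hv)
  have huB : ‖u ∘L B‖ ≤ ‖B‖ := (u.opNorm_comp_le B).trans (mul_le_of_le_one_left hB0 hu)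
  have h2 : 384 * ‖A ∘L v‖ * ((‖u ∘L B‖ + 1) * Real.sqrt L) ≤ η / 4 * L := by
    have hs0 : 0 ≤ Real.sqrt L := Real.sqrt_nonneg _
    calc 384 * ‖A ∘L v‖ * ((‖u ∘L B‖ + 1) * Real.sqrt L)
        ≤ 384 * ‖A‖ * ((‖B‖ + 1) * Real.sqrt L) := by
          apply mul_le_mul
          · exact mul_le_mul_of_nonneg_left hAv (by norm_num)
          · exact mul_le_mul_of_nonneg_right (by linarith) hs0
          · exact mul_nonneg (by positivity) hs0
          · positivity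
      _ = η / 4 * (Q * Real.sqrt L) := by rw [hQ]; field_simp
      _ ≤ η / 4 * (Real.sqrt L * Real.sqrt L) := by
          apply mul_le_mul_of_nonneg_left _ (by positivity)
          exact mul_le_mul_of_nonneg_right hQL hs0
      _ = η / 4 * L := by rw [Real.mul_self_sqrt hL0.le]
  have h3 : ‖a i‖ * L ≤ (‖W - S'‖ + η / 4 + η / 4) * L := by
    have : (‖W - S'‖ + η / 4 + η / 4) * L = (‖W - S'‖ + η / 4) * L + η / 4 * L := by ring
    rw [this]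
    exact hblock.trans (add_le_add le_rfl h2)
  have h4 := le_of_mul_le_mul_right h3 hL0
  linarith

theorem main3 (𝕜 : Type) [RCLike 𝕜] (n : ℕ) (hn : 1 ≤ n) :
    ∃ Φ : lp (fun _ : ℕ => 𝕜) ∞ →L[𝕜] Op 𝕜 n,
      (∀ a, StrictlySingular (Φ a)) ∧ (∀ a, ‖Φ a‖ ≤ 9 * ‖a‖) ∧
      ∀ a, ∀ S ∈ closure (factCK 𝕜 n), ‖a‖ ≤ ‖Φ a - S‖ := by
  obtain ⟨m, rfl⟩ : ∃ m, n = m + 1 := ⟨n - 1, by omega⟩
  obtain ⟨w, hw⟩ := exists_sys m Set.univ Set.infinite_univ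
  obtain ⟨I, c, hI, hc0, hc, hcs⟩ := exists_groups hw
  obtain ⟨d, rfl⟩ := exists_dat I hI
  set φ : ℕ → ℕ := fun k => (Nat.unpair k).1 with hφ
  have hcoord : ∀ (a : lp (fun _ : ℕ => 𝕜) ∞) (i : ℕ), ‖a i‖ ≤ ‖a‖ := fun a i =>
    lp.norm_apply_le_norm ENNReal.top_ne_zero a i
  have hμ : ∀ (a : lp (fun _ : ℕ => 𝕜) ∞) (j : ℕ+), ‖d.mu φ (fun i => a i) j‖ ≤ ‖a‖ :=
    fun a j => d.mu_norm φ _ (hcoord a) j
  let Φ0 : lp (fun _ : ℕ => 𝕜) ∞ →ₗ[𝕜] Op 𝕜 (m + 1) :=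
    { toFun := fun a => d.Wop (m + 1) w (d.mu φ (fun i => a i))
      map_add' := fun a b => d.W_add hn hw (hμ a) (hμ b) (hμ (a + b)) fun j =>
        d.mu_add φ (fun i => a i) (fun i => b i) j
      map_smul' := fun r a => d.W_smul hn hw r (hμ a) (hμ (r • a)) fun j =>
        d.mu_smul φ r (fun i => a i) j }
  refine ⟨Φ0.mkContinuous 9 fun a => d.W_norm hn hw (hμ a), fun a => d.W_ss hn hw (hμ a),
    fun a => d.W_norm hn hw (hμ a), fun a S hS => ?_⟩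
  refine lp.norm_le_of_forall_le (norm_nonneg _) fun i => ?_
  exact d.dist_le hn hw c hc0 hc hcs (fun i => a i) (hcoord a) i S hS

end Pool.Agent.KS62.SX
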