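import Pool.Agent.KS6_2.SX.Hilb

/-!
The final statement, with short definitions.
-/

open Finset Filter Topology
open scoped ZeroAtInfty ENNReal

set_option maxHeartbeats 400000

namespace Pool.Agent.KS62.SX

/-- The Banach space `ℓ_∞` of bounded scalar sequences (Mathlib's `lp` with exponent `∞`). -/
def Linf (𝕜 : Type) [RCLike 𝕜] : Type := lp (fun _ : ℕ => 𝕜) ∞

noncomputable instance instLinfGroup (𝕜 : Type) [RCLike 𝕜] : NormedAddCommGroup (Linf 𝕜) :=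
  (inferInstance : NormedAddCommGroup (lp (fun _ : ℕ => 𝕜) ∞))

noncomputable instance instLinfSpace (𝕜 : Type) [RCLike 𝕜] : NormedSpace 𝕜 (Linf 𝕜) :=
  (inferInstance : NormedSpace 𝕜 (lp (fun _ : ℕ => 𝕜) ∞))

/-- The Banach space of bounded operators on the Schreier space, with the operator norm. -/
def OpS (𝕜 : Type) [RCLike 𝕜] (n : ℕ) : Type := X 𝕜 n →L[𝕜] X 𝕜 n

noncomputable instance instOpSGroup (𝕜 : Type) [RCLike 𝕜] (n : ℕ) :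
    NormedAddCommGroup (OpS 𝕜 n) :=
  (inferInstance : NormedAddCommGroup (X 𝕜 n →L[𝕜] X 𝕜 n))

noncomputable instance instOpSSpace (𝕜 : Type) [RCLike 𝕜] (n : ℕ) : NormedSpace 𝕜 (OpS 𝕜 n) :=
  (inferInstance : NormedSpace 𝕜 (X 𝕜 n →L[𝕜] X 𝕜 n))

/-- The operator `T` on the Schreier space factors through the normed space `Z`. -/
def FactorsThrough (𝕜 : Type) [RCLike 𝕜] (n : ℕ) (Z : Type) [NormedAddCommGroup Z]
    [NormedSpace 𝕜 Z] (T : X 𝕜 n →L[𝕜] X 𝕜 n) : Prop :=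
  ∃ (A : Z →L[𝕜] X 𝕜 n) (B : X 𝕜 n →L[𝕜] Z), ∀ x, T x = A (B x)

/-- The operators which factor through `c_0`, that is Mathlib's `C₀(ℕ, 𝕜)`. -/
def opsC0 (𝕜 : Type) [RCLike 𝕜] (n : ℕ) : Set (OpS 𝕜 n) :=
  {T | FactorsThrough 𝕜 n C₀(ℕ, 𝕜) T}

/-- The operators which factor through the space `C₀(K)` for some locally compact Hausdorff
space `K`. -/
def opsCK (𝕜 : Type) [RCLike 𝕜] (n : ℕ) : Set (OpS 𝕜 n) :=
  {T | ∃ (K : Type) (_ : TopologicalSpace K) (_ : LocallyCompactSpace K) (_ : T2Space K),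
    FactorsThrough 𝕜 n C₀(K, 𝕜) T}

/-- The operators which factor through a Hilbert space. -/
def opsHilbert (𝕜 : Type) [RCLike 𝕜] (n : ℕ) : Set (OpS 𝕜 n) :=
  {T | ∃ (H : Type) (_ : NormedAddCommGroup H) (_ : InnerProductSpace 𝕜 H)
    (_ : CompleteSpace H), FactorsThrough 𝕜 n H T}

/-- The strictly singular operators. -/
def opsSS (𝕜 : Type) [RCLike 𝕜] (n : ℕ) : Set (OpS 𝕜 n) := {T | StrictlySingular T}

theorem opsC0_subset (𝕜 : Type) [RCLike 𝕜] (n : ℕ) : opsC0 𝕜 n ⊆ opsCK 𝕜 n :=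
  fun _ h => ⟨ℕ, inferInstance, inferInstance, inferInstance, h⟩

theorem main5 (𝕜 : Type) [RCLike 𝕜] (n : ℕ) (hn : 1 ≤ n) :
    ∃ Φ : Linf 𝕜 →L[𝕜] OpS 𝕜 n, (∀ a, Φ a ∈ opsSS 𝕜 n ∩ opsHilbert 𝕜 n) ∧
      ∀ a, ∀ S ∈ closure (opsCK 𝕜 n), ‖a‖ ≤ ‖Φ a - S‖ := by
  obtain ⟨Φ, h1, h2, h3⟩ := main4 𝕜 n hn
  refine ⟨Φ, fun a => ⟨h1 a, ?_⟩, fun a S hS => h3 a S hS⟩
  obtain ⟨B, A, h⟩ := h2 a
  refine ⟨lp (fun _ : ℕ+ => 𝕜) 2, inferInstance, inferInstance, inferInstance, A, B,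
    fun x => ?_⟩
  have := congrArg (fun T : X 𝕜 n →L[𝕜] X 𝕜 n => T x) h
  exact this

end Pool.Agent.KS62.SX
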