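import Mathlib

/-!
Grothendieck's inequality for finite complex matrices (with a bad constant), the Pietsch type
factorization, and the boundedness of the Kronecker product of two matrices for the norm of
bilinear forms on `ℓ_∞ × ℓ_∞`.
-/

set_option autoImplicit false

open Finset

namespace Pool.Agent.KS62.SXGroth

section moments

variable {Ω : Type*} [DecidableEq Ω]

/-- sign attached to a subset -/
noncomputable def sgn (s : Finset Ω) (i : Ω) : ℂ := if i ∈ s then 1 else -1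

/-- signed sum -/
noncomputable def sg (c : Ω → ℂ) (t s : Finset Ω) : ℂ := ∑ i ∈ t, sgn s i * c i

lemma sg_insert_insert (c : Ω → ℂ) {t s : Finset Ω} {a : Ω} (ha : a ∉ t) :
    sg c (insert a t) (insert a s) = sg c t s + c a := by
  unfold sg
  rw [sum_insert ha, add_comm]
  congr 1
  · apply sum_congr rfl
    intro i hi
    have : i ≠ a := fun h => ha (h ▸ hi)
    simp [sgn, this]
  · simp [sgn]

lemma sg_insert (c : Ω → ℂ) {t s : Finset Ω} {a : Ω} (ha : a ∉ t) (hs : s ⊆ t) :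
    sg c (insert a t) s = sg c t s - c a := by
  unfold sg
  rw [sum_insert ha, add_comm]
  have : a ∉ s := fun h => ha (hs h)
  simp [sgn, this, sub_eq_add_neg]

lemma bilin_moment (c d : Ω → ℂ) (t : Finset Ω) :
    ∑ s ∈ t.powerset, sg c t s * sg d t s = 2 ^ t.card * ∑ i ∈ t, c i * d i := by
  induction t using Finset.induction_on with
  | empty => simp [sg]
  | insert a t ha ih =>
    rw [sum_powerset_insert ha, sum_insert ha, ← sum_add_distrib, card_insert_of_notMem ha]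
    have : ∀ s ∈ t.powerset, sg c (insert a t) s * sg d (insert a t) s
        + sg c (insert a t) (insert a s) * sg d (insert a t) (insert a s)
        = 2 * (sg c t s * sg d t s) + 2 * (c a * d a) := by
      intro s hs
      rw [sg_insert_insert c ha, sg_insert_insert d ha, sg_insert c ha (mem_powerset.1 hs),
        sg_insert d ha (mem_powerset.1 hs)]
      ring
    rw [sum_congr rfl this, sum_add_distrib, ← mul_sum, ih]
    simp only [sum_const, card_powerset, nsmul_eq_mul]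
    push_cast
    ring

lemma sq_pair (z c : ℂ) : ‖z - c‖ ^ 2 + ‖z + c‖ ^ 2 = 2 * ‖z‖ ^ 2 + 2 * ‖c‖ ^ 2 := by
  have := parallelogram_law_with_norm ℝ z c
  nlinarith

lemma four_pair (z c : ℂ) :
    ‖z - c‖ ^ 4 + ‖z + c‖ ^ 4 ≤ 2 * ‖z‖ ^ 4 + 12 * ‖z‖ ^ 2 * ‖c‖ ^ 2 + 2 * ‖c‖ ^ 4 := by
  have h1 : ‖z + c‖^2 = ‖z‖^2 + 2 * (z.re * c.re + z.im * c.im) + ‖c‖^2 := by
    rw [← Complex.normSq_eq_norm_sq, ← Complex.normSq_eq_norm_sq, ← Complex.normSq_eq_norm_sq]
    simp [Complex.normSq_apply]; ring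
  have h2 : ‖z - c‖^2 = ‖z‖^2 - 2 * (z.re * c.re + z.im * c.im) + ‖c‖^2 := by
    rw [← Complex.normSq_eq_norm_sq, ← Complex.normSq_eq_norm_sq, ← Complex.normSq_eq_norm_sq]
    simp [Complex.normSq_apply]; ring
  have h3 : (z.re * c.re + z.im * c.im)^2 ≤ ‖z‖^2 * ‖c‖^2 := by
    rw [← Complex.normSq_eq_norm_sq, ← Complex.normSq_eq_norm_sq]
    simp only [Complex.normSq_apply]
    nlinarith [sq_nonneg (z.re * c.im - z.im * c.re)]
  have e1 : ‖z + c‖^4 = (‖z + c‖^2)^2 := by ring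
  have e2 : ‖z - c‖^4 = (‖z - c‖^2)^2 := by ring
  rw [e1, e2, h1, h2]
  nlinarith

lemma second_moment (c : Ω → ℂ) (t : Finset Ω) :
    ∑ s ∈ t.powerset, ‖sg c t s‖ ^ 2 = 2 ^ t.card * ∑ i ∈ t, ‖c i‖ ^ 2 := by
  induction t using Finset.induction_on with
  | empty => simp [sg]
  | insert a t ha ih =>
    rw [sum_powerset_insert ha, sum_insert ha, ← sum_add_distrib, card_insert_of_notMem ha]
    have : ∀ s ∈ t.powerset, ‖sg c (insert a t) s‖ ^ 2 + ‖sg c (insert a t) (insert a s)‖ ^ 2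
        = 2 * ‖sg c t s‖ ^ 2 + 2 * ‖c a‖ ^ 2 := by
      intro s hs
      rw [sg_insert_insert c ha, sg_insert c ha (mem_powerset.1 hs)]
      exact sq_pair _ _
    rw [sum_congr rfl this, sum_add_distrib, ← mul_sum, ih]
    simp only [sum_const, card_powerset, nsmul_eq_mul]
    push_cast
    ring

lemma fourth_moment (c : Ω → ℂ) (t : Finset Ω) :
    ∑ s ∈ t.powerset, ‖sg c t s‖ ^ 4 ≤ 3 * 2 ^ t.card * (∑ i ∈ t, ‖c i‖ ^ 2) ^ 2 := by
  induction t using Finset.induction_on with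
  | empty => simp [sg]
  | insert a t ha ih =>
    rw [sum_powerset_insert ha, sum_insert ha, ← sum_add_distrib, card_insert_of_notMem ha]
    have : ∀ s ∈ t.powerset, ‖sg c (insert a t) s‖ ^ 4 + ‖sg c (insert a t) (insert a s)‖ ^ 4
        ≤ 2 * ‖sg c t s‖ ^ 4 + 12 * ‖c a‖ ^ 2 * ‖sg c t s‖ ^ 2 + 2 * ‖c a‖ ^ 4 := by
      intro s hs
      rw [sg_insert_insert c ha, sg_insert c ha (mem_powerset.1 hs)]
      have := four_pair (sg c t s) (c a)
      linarith
    refine (sum_le_sum this).trans ?_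
    rw [sum_add_distrib, sum_add_distrib, ← mul_sum, ← mul_sum, second_moment]
    simp only [sum_const, card_powerset, nsmul_eq_mul]
    push_cast
    have hp : (0:ℝ) < 2 ^ t.card := by positivity
    have hS : 0 ≤ ∑ i ∈ t, ‖c i‖ ^ 2 := sum_nonneg (fun _ _ => by positivity)
    set S := ∑ i ∈ t, ‖c i‖ ^ 2
    rw [show (2:ℝ) ^ (t.card + 1) = 2 * 2 ^ t.card by ring]
    set P : ℝ := 2 ^ t.card
    nlinarith [mul_nonneg hp.le (by positivity : (0:ℝ) ≤ ‖c a‖^4)]

end moments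

/-- `M` bounds the bilinear form of the matrix `A` on the product of the unit balls of `ℓ_∞`. -/
def BBound {ι κ : Type*} [Fintype ι] [Fintype κ] (A : ι → κ → ℂ) (M : ℝ) : Prop :=
  ∀ (x : ι → ℂ) (y : κ → ℂ), (∀ i, ‖x i‖ ≤ 1) → (∀ j, ‖y j‖ ≤ 1) →
    ‖∑ i, ∑ j, A i j * x i * y j‖ ≤ M

/-- the form with vectors -/
noncomputable def form {ι κ Ω : Type*} [Fintype ι] [Fintype κ] [Fintype Ω] (A : ι → κ → ℂ)
    (u : ι → Ω → ℂ) (v : κ → Ω → ℂ) : ℂ := ∑ i, ∑ j, A i j * ∑ ω, u i ω * v j ω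

section groth

variable {ι κ : Type} [Fintype ι] [Fintype κ]

/-- all values of the form on unit vectors -/
def vals (A : ι → κ → ℂ) : Set ℝ :=
  {r | ∃ (Ω : Type) (_ : Fintype Ω) (u : ι → Ω → ℂ) (v : κ → Ω → ℂ),
    (∀ i, ∑ ω, ‖u i ω‖ ^ 2 ≤ 1) ∧ (∀ j, ∑ ω, ‖v j ω‖ ^ 2 ≤ 1) ∧ r = ‖form A u v‖}

lemma inner_le {Ω : Type} [Fintype Ω] {a b : Ω → ℂ} (ha : ∑ ω, ‖a ω‖ ^ 2 ≤ 1)
    (hb : ∑ ω, ‖b ω‖ ^ 2 ≤ 1) : ‖∑ ω, a ω * b ω‖ ≤ 1 := by
  calc ‖∑ ω, a ω * b ω‖ ≤ ∑ ω, ‖a ω‖ * ‖b ω‖ := by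
        refine (norm_sum_le _ _).trans (le_of_eq ?_)
        simp
    _ ≤ ∑ ω, (‖a ω‖ ^ 2 + ‖b ω‖ ^ 2) / 2 := by
        apply sum_le_sum
        intro i _
        nlinarith [sq_nonneg (‖a i‖ - ‖b i‖)]
    _ = (∑ ω, ‖a ω‖ ^ 2 + ∑ ω, ‖b ω‖ ^ 2) / 2 := by
        rw [← sum_add_distrib, sum_div]
    _ ≤ 1 := by linarith

lemma bddAbove_vals (A : ι → κ → ℂ) : BddAbove (vals A) := by
  refine ⟨∑ i, ∑ j, ‖A i j‖, ?_⟩
  rintro _ ⟨Ω, _, u, v, hu, hv, rfl⟩
  unfold form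
  refine (norm_sum_le _ _).trans (sum_le_sum fun i _ => (norm_sum_le _ _).trans
    (sum_le_sum fun j _ => ?_))
  rw [norm_mul]
  calc ‖A i j‖ * ‖∑ ω, u i ω * v j ω‖ ≤ ‖A i j‖ * 1 := by
        gcongr
        exact inner_le (hu i) (hv j)
    _ = ‖A i j‖ := mul_one _

lemma form_smul {Ω : Type} [Fintype Ω] (A : ι → κ → ℂ) (a b : ℂ) (u : ι → Ω → ℂ)
    (v : κ → Ω → ℂ) :
    form A (fun i ω => a * u i ω) (fun j ω => b * v j ω) = a * b * form A u v := by
  unfold form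
  simp only [mul_sum]
  refine sum_congr rfl fun i _ => sum_congr rfl fun j _ => sum_congr rfl fun ω _ => ?_
  ring

lemma form_le (A : ι → κ → ℂ) {Ω : Type} [Fintype Ω] (u : ι → Ω → ℂ) (v : κ → Ω → ℂ) {a b : ℝ}
    (ha : 0 < a) (hb : 0 < b) (hu : ∀ i, ∑ ω, ‖u i ω‖ ^ 2 ≤ a ^ 2)
    (hv : ∀ j, ∑ ω, ‖v j ω‖ ^ 2 ≤ b ^ 2) : ‖form A u v‖ ≤ sSup (vals A) * (a * b) := by
  have key : ‖form A (fun i ω => ((a⁻¹ : ℝ) : ℂ) * u i ω) (fun j ω => ((b⁻¹ : ℝ) : ℂ) * v j ω)‖
      ≤ sSup (vals A) := by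
    apply le_csSup (bddAbove_vals A)
    refine ⟨Ω, inferInstance, _, _, ?_, ?_, rfl⟩
    · intro i
      simp only [norm_mul, mul_pow, ← mul_sum, Complex.norm_real]
      rw [Real.norm_of_nonneg (by positivity), inv_pow, inv_mul_le_iff₀ (by positivity), mul_one]
      exact hu i
    · intro i
      simp only [norm_mul, mul_pow, ← mul_sum, Complex.norm_real]
      rw [Real.norm_of_nonneg (by positivity), inv_pow, inv_mul_le_iff₀ (by positivity), mul_one]
      exact hv i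
  rw [form_smul, norm_mul, norm_mul, Complex.norm_real, Complex.norm_real,
    Real.norm_of_nonneg (by positivity), Real.norm_of_nonneg (by positivity), ← mul_inv,
    inv_mul_le_iff₀ (by positivity)] at key
  linarith

/-- Grothendieck's inequality. -/
theorem groth (A : ι → κ → ℂ) {M : ℝ} (hA : BBound A M) : sSup (vals A) ≤ 96 * M := by
  classical
  have hne : (vals A).Nonempty := ⟨_, PUnit, inferInstance, fun _ _ => 0, fun _ _ => 0,
    by simp, by simp, rfl⟩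
  set Γ := sSup (vals A) with hΓ
  suffices h : Γ ≤ 48 * M + Γ / 2 by linarith
  rw [hΓ]
  apply csSup_le hne
  rintro _ ⟨Ω, _, u, v, hu, hv, rfl⟩
  rw [← hΓ]
  -- the signed sums
  set n := (univ : Finset Ω).card with hn
  let U : ι → Finset Ω → ℂ := fun i s => sg (u i) univ s
  let V : κ → Finset Ω → ℂ := fun j s => sg (v j) univ s
  let tr : ℂ → ℂ := fun z => if ‖z‖ ^ 2 ≤ 48 then z else 0
  let re : ℂ → ℂ := fun z => if ‖z‖ ^ 2 ≤ 48 then 0 else z
  have htr : ∀ z, tr z + re z = z := by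
    intro z
    simp only [tr, re]
    split_ifs <;> simp
  have htr1 : ∀ z, ‖tr z‖ ^ 2 ≤ 48 := by
    intro z
    simp only [tr]
    split_ifs with h
    · exact h
    · simp
  have htr2 : ∀ z, ‖tr z‖ ≤ ‖z‖ := by
    intro z
    simp only [tr]
    split_ifs with h
    · exact le_rfl
    · simp
  have hre : ∀ z, ‖re z‖ ^ 2 ≤ ‖z‖ ^ 4 / 48 := by
    intro z
    simp only [re]
    split_ifs with h
    · simp; positivity
    · push Not at h
      rw [le_div_iff₀ (by norm_num)]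
      nlinarith [sq_nonneg ‖z‖]
  have h2n : (0 : ℝ) < 2 ^ n := by positivity
  set q : ℝ := (√(2 ^ n))⁻¹ with hq
  have hq0 : 0 < q := by positivity
  have hq2 : q ^ 2 = (2 ^ n)⁻¹ := by
    rw [hq, inv_pow, Real.sq_sqrt h2n.le]
  have hpow : (univ : Finset Ω).powerset = (univ : Finset (Finset Ω)) := by
    ext s; simp
  have hmomU : ∀ i, ∑ s, ‖U i s‖ ^ 2 ≤ 2 ^ n := by
    intro i
    have := second_moment (u i) univ
    rw [hpow] at this
    show ∑ s, ‖sg (u i) univ s‖ ^ 2 ≤ 2 ^ n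
    rw [this]
    have h3 := hu i
    nlinarith
  have hmomV : ∀ i, ∑ s, ‖V i s‖ ^ 2 ≤ 2 ^ n := by
    intro i
    have := second_moment (v i) univ
    rw [hpow] at this
    show ∑ s, ‖sg (v i) univ s‖ ^ 2 ≤ 2 ^ n
    rw [this]
    have h3 := hv i
    nlinarith
  have hmomU4 : ∀ i, ∑ s, ‖U i s‖ ^ 4 ≤ 3 * 2 ^ n := by
    intro i
    have := fourth_moment (u i) univ
    rw [hpow] at this
    refine this.trans ?_
    have h3 := hu i
    have h4 : 0 ≤ ∑ ω, ‖u i ω‖ ^ 2 := sum_nonneg fun _ _ => by positivity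
    have h5 : (∑ ω, ‖u i ω‖ ^ 2) ^ 2 ≤ 1 := by nlinarith
    nlinarith
  have hmomV4 : ∀ i, ∑ s, ‖V i s‖ ^ 4 ≤ 3 * 2 ^ n := by
    intro i
    have := fourth_moment (v i) univ
    rw [hpow] at this
    refine this.trans ?_
    have h3 := hv i
    have h4 : 0 ≤ ∑ ω, ‖v i ω‖ ^ 2 := sum_nonneg fun _ _ => by positivity
    have h5 : (∑ ω, ‖v i ω‖ ^ 2) ^ 2 ≤ 1 := by nlinarith
    nlinarith
  -- the identity
  have hid : form A u v =
      form A (fun i s => (q : ℂ) * tr (U i s)) (fun j s => (q : ℂ) * tr (V j s))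
      + form A (fun i s => (q : ℂ) * re (U i s)) (fun j s => (q : ℂ) * tr (V j s))
      + form A (fun i s => (q : ℂ) * U i s) (fun j s => (q : ℂ) * re (V j s)) := by
    rw [form_smul, form_smul, form_smul]
    have hqq : (q : ℂ) * q = ((2 : ℂ) ^ n)⁻¹ := by
      have : ((q ^ 2 : ℝ) : ℂ) = (((2 ^ n)⁻¹ : ℝ) : ℂ) := by rw [hq2]
      push_cast at this
      rw [← sq, this]
    rw [hqq, ← mul_add, ← mul_add]
    have h2nc : ((2 : ℂ) ^ n) ≠ 0 := pow_ne_zero _ two_ne_zero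
    rw [eq_inv_mul_iff_mul_eq₀ h2nc]
    unfold form
    rw [← sum_add_distrib, ← sum_add_distrib, mul_sum]
    refine sum_congr rfl fun i _ => ?_
    rw [← sum_add_distrib, ← sum_add_distrib, mul_sum]
    refine sum_congr rfl fun j _ => ?_
    rw [← mul_add, ← mul_add, mul_left_comm]
    congr 1
    have := bilin_moment (u i) (v j) univ
    rw [hpow] at this
    rw [← this, ← sum_add_distrib, ← sum_add_distrib]
    refine sum_congr rfl fun s _ => ?_
    have h1 := htr (U i s)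
    have h2 := htr (V j s)
    calc sg (u i) univ s * sg (v j) univ s = U i s * V j s := rfl
      _ = U i s * (tr (V j s) + re (V j s)) := by rw [h2]
      _ = U i s * tr (V j s) + U i s * re (V j s) := by ring
      _ = (tr (U i s) + re (U i s)) * tr (V j s) + U i s * re (V j s) := by rw [h1]
      _ = _ := by ring
  -- the three terms
  have t1 : ‖form A (fun i s => (q : ℂ) * tr (U i s)) (fun j s => (q : ℂ) * tr (V j s))‖
      ≤ 48 * M := by
    rw [form_smul]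
    have hM : ∀ s, ‖∑ i, ∑ j, A i j * (tr (U i s) * tr (V j s))‖ ≤ 48 * M := by
      intro s
      have h48 : (0 : ℝ) < √48 := by positivity
      have hs : √48 * √48 = (48 : ℝ) := Real.mul_self_sqrt (by norm_num)
      have hb : ∀ z, ‖((√48)⁻¹ : ℝ) * tr z‖ ≤ 1 := by
        intro z
        rw [norm_mul, Complex.norm_real, Real.norm_of_nonneg (by positivity),
          inv_mul_le_iff₀ h48, mul_one]
        exact Real.le_sqrt_of_sq_le (htr1 z)
      have := hA (fun i => ((√48)⁻¹ : ℝ) * tr (U i s)) (fun j => ((√48)⁻¹ : ℝ) * tr (V j s))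
        (fun i => hb _) (fun j => hb _)
      have h3 : ∑ i, ∑ j, A i j * (((√48)⁻¹ : ℝ) * tr (U i s)) * (((√48)⁻¹ : ℝ) * tr (V j s))
          = ((48⁻¹ : ℝ) : ℂ) * ∑ i, ∑ j, A i j * (tr (U i s) * tr (V j s)) := by
        rw [mul_sum]
        refine sum_congr rfl fun i _ => ?_
        rw [mul_sum]
        refine sum_congr rfl fun j _ => ?_
        have h5 : ((√48)⁻¹ : ℝ) * ((√48)⁻¹ : ℝ) = (48⁻¹ : ℝ) := by rw [← mul_inv, hs]
        have h6 : (((√48)⁻¹ : ℝ) : ℂ) * (((√48)⁻¹ : ℝ) : ℂ) = ((48⁻¹ : ℝ) : ℂ) := by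
          rw [← Complex.ofReal_mul, h5]
        rw [← h6]
        ring
      rw [h3, norm_mul, Complex.norm_real, Real.norm_of_nonneg (by positivity),
        inv_mul_le_iff₀ (by norm_num)] at this
      exact this
    have h4 : form A (fun i s => tr (U i s)) (fun j s => tr (V j s))
        = ∑ s, ∑ i, ∑ j, A i j * (tr (U i s) * tr (V j s)) := by
      unfold form
      simp only [mul_sum]
      rw [sum_comm (s := (univ : Finset (Finset Ω)))]
      exact sum_congr rfl fun i _ => sum_comm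
    rw [h4, norm_mul, norm_mul, Complex.norm_real, Real.norm_of_nonneg hq0.le, ← sq, hq2,
      inv_mul_le_iff₀ h2n]
    refine (norm_sum_le _ _).trans ((sum_le_sum fun s _ => hM s).trans (le_of_eq ?_))
    rw [sum_const, card_univ, Fintype.card_finset, nsmul_eq_mul, hn, card_univ]
    push_cast
    ring
  have ns : ∀ (z : ℂ), ‖(q : ℂ) * z‖ ^ 2 = (2 ^ n)⁻¹ * ‖z‖ ^ 2 := by
    intro z
    rw [norm_mul, mul_pow, Complex.norm_real, Real.norm_of_nonneg hq0.le, hq2]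
  have bre : ∀ (W : Finset Ω → ℂ), ∑ s, ‖W s‖ ^ 4 ≤ 3 * 2 ^ n →
      ∑ s, ‖(q : ℂ) * re (W s)‖ ^ 2 ≤ (1 / 4) ^ 2 := by
    intro W hW
    simp only [ns, ← mul_sum]
    rw [inv_mul_le_iff₀ h2n]
    calc ∑ s, ‖re (W s)‖ ^ 2 ≤ ∑ s, ‖W s‖ ^ 4 / 48 := sum_le_sum fun s _ => hre _
      _ = (∑ s, ‖W s‖ ^ 4) / 48 := by rw [sum_div]
      _ ≤ (3 * 2 ^ n) / 48 := by gcongr
      _ = _ := by ring
  have btr : ∀ (W : Finset Ω → ℂ), ∑ s, ‖W s‖ ^ 2 ≤ 2 ^ n →
      ∑ s, ‖(q : ℂ) * tr (W s)‖ ^ 2 ≤ 1 ^ 2 := by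
    intro W hW
    simp only [ns, ← mul_sum]
    rw [inv_mul_le_iff₀ h2n, one_pow, mul_one]
    refine (sum_le_sum fun s _ => ?_).trans hW
    have := htr2 (W s)
    gcongr
  have bid : ∀ (W : Finset Ω → ℂ), ∑ s, ‖W s‖ ^ 2 ≤ 2 ^ n →
      ∑ s, ‖(q : ℂ) * W s‖ ^ 2 ≤ 1 ^ 2 := by
    intro W hW
    simp only [ns, ← mul_sum]
    rw [inv_mul_le_iff₀ h2n, one_pow, mul_one]
    exact hW
  have t2 : ‖form A (fun i s => (q : ℂ) * re (U i s)) (fun j s => (q : ℂ) * tr (V j s))‖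
      ≤ Γ * (1 / 4 * 1) :=
    form_le A _ _ (by norm_num) one_pos (fun i => bre _ (hmomU4 i)) (fun j => btr _ (hmomV j))
  have t3 : ‖form A (fun i s => (q : ℂ) * U i s) (fun j s => (q : ℂ) * re (V j s))‖
      ≤ Γ * (1 * (1 / 4)) :=
    form_le A _ _ one_pos (by norm_num) (fun i => bid _ (hmomU i)) (fun j => bre _ (hmomV4 j))
  rw [hid]
  refine (norm_add₃_le).trans ?_
  linarith

end groth

section pietsch

variable {ι κ : Type} [Fintype ι] [Fintype κ]

lemma sSup_vals_nonneg (A : ι → κ → ℂ) : 0 ≤ sSup (vals A) := by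
  apply le_csSup_of_le (bddAbove_vals A)
    ⟨PUnit, inferInstance, fun _ _ => 0, fun _ _ => 0, by simp, by simp, rfl⟩
  exact norm_nonneg _

/-- the bilinear form -/
noncomputable def B (A : ι → κ → ℂ) (x : ι → ℂ) (y : κ → ℂ) : ℂ := ∑ i, ∑ j, A i j * x i * y j

/-- the function used in the separation argument -/
noncomputable def F (A : ι → κ → ℂ) (K : ℝ) (x : ι → ℂ) (y : κ → ℂ) : ι × κ → ℝ :=
  fun p => K / 2 * (‖x p.1‖ ^ 2 + ‖y p.2‖ ^ 2) - (B A x y).re

lemma exists_nonneg [Nonempty ι] [Nonempty κ] (A : ι → κ → ℂ) {K : ℝ} (hK : sSup (vals A) ≤ K)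
    (Ω : Type) (t : Finset Ω) (w : Ω → ℝ) (hw : ∀ i ∈ t, 0 ≤ w i) (x : Ω → ι → ℂ)
    (y : Ω → κ → ℂ) : ∃ p, 0 ≤ ∑ ω ∈ t, w ω * F A K (x ω) (y ω) p := by
  have hK0 : 0 ≤ K := (sSup_vals_nonneg A).trans hK
  set a : ι → ℝ := fun i => ∑ ω ∈ t, w ω * ‖x ω i‖ ^ 2 with ha
  set b : κ → ℝ := fun j => ∑ ω ∈ t, w ω * ‖y ω j‖ ^ 2 with hb
  obtain ⟨i0, hi0⟩ := Finite.exists_max a
  obtain ⟨j0, hj0⟩ := Finite.exists_max b
  have ha0 : 0 ≤ a i0 := sum_nonneg fun ω hω => mul_nonneg (hw ω hω) (by positivity)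
  have hb0 : 0 ≤ b j0 := sum_nonneg fun ω hω => mul_nonneg (hw ω hω) (by positivity)
  refine ⟨(i0, j0), ?_⟩
  let u : ι → t → ℂ := fun i ω => (√(w ω) : ℂ) * x ω i
  let v : κ → t → ℂ := fun j ω => (√(w ω) : ℂ) * y ω j
  have hsq : ∀ ω : t, ((√(w ω) : ℝ) : ℂ) * ((√(w ω) : ℝ) : ℂ) = (w ω : ℂ) := by
    intro ω
    rw [← Complex.ofReal_mul, Real.mul_self_sqrt (hw ω ω.2)]
  have hu : ∀ i, ∑ ω, ‖u i ω‖ ^ 2 = a i := by
    intro i
    simp only [u, norm_mul, mul_pow, Complex.norm_real, ha]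
    rw [← sum_coe_sort t (fun ω => w ω * ‖x ω i‖ ^ 2)]
    refine sum_congr rfl fun ω _ => ?_
    rw [Real.norm_of_nonneg (Real.sqrt_nonneg _), Real.sq_sqrt (hw ω ω.2)]
  have hv : ∀ j, ∑ ω, ‖v j ω‖ ^ 2 = b j := by
    intro i
    simp only [v, norm_mul, mul_pow, Complex.norm_real, hb]
    rw [← sum_coe_sort t (fun ω => w ω * ‖y ω i‖ ^ 2)]
    refine sum_congr rfl fun ω _ => ?_
    rw [Real.norm_of_nonneg (Real.sqrt_nonneg _), Real.sq_sqrt (hw ω ω.2)]
  have hform : form A u v = ∑ ω ∈ t, (w ω : ℂ) * B A (x ω) (y ω) := by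
    rw [← sum_coe_sort t (fun ω => (w ω : ℂ) * B A (x ω) (y ω))]
    unfold form B
    simp only [mul_sum]
    rw [sum_comm (s := (univ : Finset t))]
    refine sum_congr rfl fun i _ => ?_
    rw [sum_comm (s := (univ : Finset t))]
    refine sum_congr rfl fun j _ => sum_congr rfl fun ω _ => ?_
    rw [← hsq ω]
    simp only [u, v]
    ring
  have hle : (form A u v).re ≤ K / 2 * (a i0 + b j0) := by
    refine le_of_forall_pos_le_add fun η hη => ?_
    set δ : ℝ := η / (K + 1) with hδ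
    have hδ0 : 0 < δ := by positivity
    have h1 : ‖form A u v‖ ≤ sSup (vals A) * (√(a i0 + δ) * √(b j0 + δ)) := by
      apply form_le A u v (by positivity) (by positivity)
      · intro i
        rw [hu, Real.sq_sqrt (by positivity)]
        linarith [hi0 i]
      · intro i
        rw [hv, Real.sq_sqrt (by positivity)]
        linarith [hj0 i]
    have h2 : √(a i0 + δ) * √(b j0 + δ) ≤ (a i0 + b j0) / 2 + δ := by
      have e1 := Real.sq_sqrt (by positivity : 0 ≤ a i0 + δ)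
      have e2 := Real.sq_sqrt (by positivity : 0 ≤ b j0 + δ)
      nlinarith [sq_nonneg (√(a i0 + δ) - √(b j0 + δ))]
    have h3 : K * δ ≤ η := by
      rw [hδ, mul_div_assoc', div_le_iff₀ (by positivity)]
      nlinarith
    calc (form A u v).re ≤ ‖form A u v‖ := Complex.re_le_norm _
      _ ≤ _ := h1
      _ ≤ K * ((a i0 + b j0) / 2 + δ) := by
          apply mul_le_mul hK h2 (by positivity) hK0
      _ ≤ _ := by linarith
  have hsum : ∑ ω ∈ t, w ω * F A K (x ω) (y ω) (i0, j0)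
      = K / 2 * (a i0 + b j0) - (form A u v).re := by
    rw [hform, Complex.re_sum]
    simp only [F, Complex.re_ofReal_mul, ha, hb]
    rw [← sum_add_distrib, mul_sum, ← sum_sub_distrib]
    refine sum_congr rfl fun ω _ => ?_
    ring
  rw [hsum]
  linarith

/-- Pietsch type factorization. -/
theorem pietsch [Nonempty ι] [Nonempty κ] (A : ι → κ → ℂ) {K : ℝ} (hK : sSup (vals A) ≤ K) :
    ∃ (lam : ι → ℝ) (mu : κ → ℝ), (∀ i, 0 ≤ lam i) ∧ (∀ j, 0 ≤ mu j) ∧ ∑ i, lam i = 1 ∧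
      ∑ j, mu j = 1 ∧ ∀ x y, (B A x y).re ≤
        K / 2 * (∑ i, lam i * ‖x i‖ ^ 2 + ∑ j, mu j * ‖y j‖ ^ 2) := by
  classical
  set s : Set (ι × κ → ℝ) := Set.pi Set.univ (fun _ => Set.Iio 0) with hs
  set T : Set (ι × κ → ℝ) := Set.range (fun q : (ι → ℂ) × (κ → ℂ) => F A K q.1 q.2) with hT
  have hsc : Convex ℝ s := convex_pi fun _ _ => convex_Iio 0
  have hso : IsOpen s := isOpen_set_pi Set.finite_univ (fun _ _ => isOpen_Iio)
  have hdisj : Disjoint s (convexHull ℝ T) := by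
    rw [Set.disjoint_left]
    intro f hfs hft
    rw [_root_.convexHull_eq] at hft
    obtain ⟨Ω, t, w, z, hw0, hw1, hz, hf⟩ := hft
    rw [Finset.centerMass_eq_of_sum_1 _ _ hw1] at hf
    have hz' : ∀ ω : Ω, ∃ q : (ι → ℂ) × (κ → ℂ), ω ∈ t → z ω = F A K q.1 q.2 := by
      intro ω
      by_cases h : ω ∈ t
      · obtain ⟨q, hq⟩ := hz ω h
        exact ⟨q, fun _ => hq.symm⟩
      · exact ⟨0, fun h' => absurd h' h⟩
    choose q hq using hz'
    obtain ⟨p, hp⟩ := exists_nonneg A hK Ω t w hw0 (fun ω => (q ω).1) (fun ω => (q ω).2)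
    have h1 : f p = ∑ ω ∈ t, w ω * F A K (q ω).1 (q ω).2 p := by
      rw [← hf, Finset.sum_apply]
      refine sum_congr rfl fun ω hω => ?_
      rw [Pi.smul_apply, smul_eq_mul, hq ω hω]
    have h2 : f p < 0 := hfs p (Set.mem_univ p)
    linarith
  obtain ⟨φ, u0, h1, h2⟩ := geometric_hahn_banach_open hsc hso (convex_convexHull ℝ T) hdisj
  have hφ : ∀ f : ι × κ → ℝ, φ f = ∑ p, f p * φ (fun p' => if p = p' then 1 else 0) := by
    intro f
    have := (φ : (ι × κ → ℝ) →ₗ[ℝ] ℝ).pi_apply_eq_sum_univ f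
    simpa using this
  set ν : ι × κ → ℝ := fun p => φ (fun p' => if p = p' then 1 else 0) with hν
  have hφ' : ∀ f : ι × κ → ℝ, φ f = ∑ p, f p * ν p := hφ
  set N : ℝ := ∑ p, ν p with hN
  have hone : φ (fun _ => 1) = N := by
    rw [hφ']; simp [hN]
  have hu0 : u0 ≤ 0 := by
    have h3 : (0 : ι × κ → ℝ) ∈ convexHull ℝ T := by
      apply subset_convexHull
      refine ⟨(0, 0), ?_⟩
      ext p
      simp [F, B]
    have := h2 0 h3
    rwa [map_zero] at this
  have hneg : ∀ f : ι × κ → ℝ, (∀ p, f p < 0) → φ f < 0 := by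
    intro f hf
    exact (h1 f (fun p _ => hf p)).trans_le hu0
  have hνnonneg : ∀ p, 0 ≤ ν p := by
    intro p
    by_contra hcon
    push Not at hcon
    set c : ℝ := (|N| + 1) / (-ν p) with hc
    have hc0 : 0 < c := by
      apply div_pos (by positivity) (by linarith)
    have h4 := hneg (fun p' => -(c * (if p = p' then 1 else 0)) - 1) (by
      intro p'
      split_ifs
      · linarith
      · norm_num)
    rw [hφ'] at h4
    have h5 : ∑ p', (-(c * (if p = p' then 1 else 0)) - 1) * ν p' = -(c * ν p) - N := by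
      simp only [sub_mul, sum_sub_distrib, one_mul, neg_mul, sum_neg_distrib, mul_ite, mul_one,
        mul_zero, ite_mul, zero_mul]
      simp [hN]
    rw [h5] at h4
    have h6 : c * ν p = -(|N| + 1) := by
      have hne : ν p ≠ 0 := hcon.ne
      rw [hc, div_neg, neg_mul, div_mul_cancel₀ _ hne]
    rw [h6] at h4
    linarith [neg_abs_le N, le_abs_self N]
  have hNpos : 0 < N := by
    have := hneg (fun _ => -1) (by intro p; norm_num)
    rw [hφ'] at this
    simp only [neg_mul, one_mul, sum_neg_distrib] at this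
    linarith
  have hu0' : 0 ≤ u0 := by
    refine le_of_forall_pos_le_add fun η hη => ?_
    have h4 := h1 (fun _ => -(η / N)) (by
      intro p _
      show -(η / N) < 0
      have : 0 < η / N := by positivity
      linarith)
    rw [hφ'] at h4
    simp only [← mul_sum] at h4
    rw [← hN] at h4
    have : -(η / N) * N = -η := by field_simp
    rw [this] at h4
    linarith
  refine ⟨fun i => (∑ j, ν (i, j)) / N, fun j => (∑ i, ν (i, j)) / N, ?_, ?_, ?_, ?_, ?_⟩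
  · intro i
    exact div_nonneg (sum_nonneg fun j _ => hνnonneg _) hNpos.le
  · intro i
    exact div_nonneg (sum_nonneg fun j _ => hνnonneg _) hNpos.le
  · rw [← sum_div, div_eq_one_iff_eq hNpos.ne', hN, Fintype.sum_prod_type]
  · rw [← sum_div, div_eq_one_iff_eq hNpos.ne', hN, Fintype.sum_prod_type_right]
  · intro x y
    have h4 := h2 (F A K x y) (subset_convexHull ℝ T ⟨(x, y), rfl⟩)
    rw [hφ'] at h4
    have h5 : ∑ p, F A K x y p * ν p = K / 2 * (∑ i, (∑ j, ν (i, j)) * ‖x i‖ ^ 2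
        + ∑ j, (∑ i, ν (i, j)) * ‖y j‖ ^ 2) - (B A x y).re * N := by
      have e1 : ∑ i, (∑ j, ν (i, j)) * ‖x i‖ ^ 2 = ∑ p : ι × κ, ν p * ‖x p.1‖ ^ 2 := by
        rw [Fintype.sum_prod_type]
        refine sum_congr rfl fun i _ => ?_
        rw [sum_mul]
      have e2 : ∑ j, (∑ i, ν (i, j)) * ‖y j‖ ^ 2 = ∑ p : ι × κ, ν p * ‖y p.2‖ ^ 2 := by
        rw [Fintype.sum_prod_type_right]
        refine sum_congr rfl fun i _ => ?_
        rw [sum_mul]
      rw [e1, e2, ← sum_add_distrib, mul_sum, hN, mul_sum, ← sum_sub_distrib]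
      refine sum_congr rfl fun p _ => ?_
      simp only [F]
      ring
    rw [h5] at h4
    have h6 : (B A x y).re * N ≤ K / 2 * (∑ i, (∑ j, ν (i, j)) * ‖x i‖ ^ 2
        + ∑ j, (∑ i, ν (i, j)) * ‖y j‖ ^ 2) := by linarith
    rw [← le_div_iff₀ hNpos] at h6
    refine h6.trans (le_of_eq ?_)
    rw [mul_div_assoc, add_div, sum_div, sum_div]
    congr 2
    · refine sum_congr rfl fun i _ => ?_
      ring
    · refine sum_congr rfl fun i _ => ?_
      ring

end pietsch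

section kron

variable {ι κ ι' κ' : Type} [Fintype ι] [Fintype κ] [Fintype ι'] [Fintype κ']

theorem kron [Nonempty ι'] [Nonempty κ'] (A : ι → κ → ℂ) (A' : ι' → κ' → ℂ) {M M' : ℝ}
    (hA : BBound A M) (hA' : BBound A' M') (hM' : 0 < M') (X : ι → ι' → ℂ) (Y : κ → κ' → ℂ)
    (hX : ∀ i i', ‖X i i'‖ ≤ 1) (hY : ∀ j j', ‖Y j j'‖ ≤ 1) :
    ‖∑ i, ∑ j, A i j * ∑ i', ∑ j', A' i' j' * X i i' * Y j j'‖
      ≤ 96 * M * (96 * M' * 2) := by
  classical
  set K : ℝ := 96 * M' with hK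
  have hK0 : 0 < K := by positivity
  obtain ⟨lam, mu, hl0, hm0, hl1, hm1, hB⟩ := pietsch A' (groth A' hA')
  rw [← hK] at hB
  set c : ℝ := (Fintype.card κ' : ℝ) with hc
  have hc0 : 0 < c := by
    rw [hc]; exact_mod_cast Fintype.card_pos
  set m : κ' → ℝ := fun j => mu j + c⁻¹ with hm
  have hmpos : ∀ j, 0 < m j := fun j => add_pos_of_nonneg_of_pos (hm0 j) (by positivity)
  have hmsum : ∑ j, m j = 2 := by
    simp only [hm, sum_add_distrib, hm1, sum_const, card_univ, nsmul_eq_mul]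
    rw [← hc, mul_inv_cancel₀ hc0.ne']
    norm_num
  let w : ι → κ' → ℂ := fun i j' => ∑ i', A' i' j' * X i i'
  let P : ι → κ' → ℂ := fun i j' => w i j' * ((√(m j'))⁻¹ : ℝ)
  let Q : κ → κ' → ℂ := fun j j' => ((√(m j')) : ℝ) * Y j j'
  have hsum : ∑ i, ∑ j, A i j * ∑ i', ∑ j', A' i' j' * X i i' * Y j j' = form A P Q := by
    unfold form
    refine sum_congr rfl fun i _ => sum_congr rfl fun j _ => ?_
    congr 1
    rw [sum_comm]
    refine sum_congr rfl fun j' _ => ?_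
    simp only [P, Q, w]
    have h1 : ((√(m j'))⁻¹ : ℝ) * (√(m j') : ℝ) = (1 : ℝ) :=
      inv_mul_cancel₀ (Real.sqrt_pos.2 (hmpos j')).ne'
    have h2 : ((((√(m j'))⁻¹ : ℝ)) : ℂ) * (((√(m j') : ℝ)) : ℂ) = 1 := by
      rw [← Complex.ofReal_mul, h1, Complex.ofReal_one]
    calc ∑ i', A' i' j' * X i i' * Y j j' = (∑ i', A' i' j' * X i i') * Y j j' := by
          rw [sum_mul]
      _ = (∑ i', A' i' j' * X i i') * (((((√(m j'))⁻¹ : ℝ)) : ℂ) * (((√(m j') : ℝ)) : ℂ))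
            * Y j j' := by rw [h2, mul_one]
      _ = _ := by ring
  have hP : ∀ i, ∑ j', ‖P i j'‖ ^ 2 ≤ K ^ 2 := by
    intro i
    set W : ℝ := ∑ j', ‖P i j'‖ ^ 2 with hW
    have hPj : ∀ j', ‖P i j'‖ ^ 2 = ‖w i j'‖ ^ 2 / m j' := by
      intro j'
      simp only [P, norm_mul, mul_pow, Complex.norm_real]
      rw [Real.norm_of_nonneg (by positivity), inv_pow, Real.sq_sqrt (hmpos j').le]
      rfl
    let y : κ' → ℂ := fun j' => ((K⁻¹ / m j' : ℝ) : ℂ) * (starRingEnd ℂ) (w i j')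
    have h1 := hB (X i) y
    have h2 : B A' (X i) y = ((K⁻¹ * W : ℝ) : ℂ) := by
      unfold B
      rw [sum_comm, hW]
      push_cast
      rw [mul_sum]
      refine sum_congr rfl fun j' _ => ?_
      have h3 : ∑ i', A' i' j' * X i i' * y j' = w i j' * y j' := by
        simp only [w, sum_mul]
      rw [h3]
      simp only [y]
      have h4 : w i j' * (starRingEnd ℂ) (w i j') = ((‖w i j'‖ ^ 2 : ℝ) : ℂ) := by
        rw [Complex.mul_conj, Complex.normSq_eq_norm_sq]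
      have h5 := hPj j'
      have h6 : ((‖P i j'‖ : ℂ)) ^ 2 = ((‖w i j'‖ ^ 2 / m j' : ℝ) : ℂ) := by
        rw [← h5]; push_cast; rfl
      rw [h6]
      calc w i j' * (((K⁻¹ / m j' : ℝ) : ℂ) * (starRingEnd ℂ) (w i j'))
          = ((K⁻¹ / m j' : ℝ) : ℂ) * (w i j' * (starRingEnd ℂ) (w i j')) := by ring
        _ = ((K⁻¹ / m j' : ℝ) : ℂ) * ((‖w i j'‖ ^ 2 : ℝ) : ℂ) := by rw [h4]
        _ = _ := by push_cast; ring
    rw [h2, Complex.ofReal_re] at h1
    have h3 : ∑ i', lam i' * ‖X i i'‖ ^ 2 ≤ 1 := by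
      rw [← hl1]
      refine sum_le_sum fun i' _ => ?_
      have := hX i i'
      have h7 : ‖X i i'‖ ^ 2 ≤ 1 := pow_le_one₀ (norm_nonneg _) this
      have := hl0 i'
      nlinarith
    have h4 : ∑ j', mu j' * ‖y j'‖ ^ 2 ≤ K⁻¹ ^ 2 * W := by
      rw [hW, mul_sum]
      refine sum_le_sum fun j' _ => ?_
      rw [hPj j']
      simp only [y, norm_mul, mul_pow, Complex.norm_real, RCLike.norm_conj]
      rw [Real.norm_of_nonneg (by have := hmpos j'; positivity)]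
      have h8 := hmpos j'
      have h9 : mu j' ≤ m j' := by
        simp only [hm]
        have : 0 < c⁻¹ := by positivity
        linarith
      calc mu j' * ((K⁻¹ / m j') ^ 2 * ‖w i j'‖ ^ 2) ≤ m j' * ((K⁻¹ / m j') ^ 2 * ‖w i j'‖ ^ 2) := by
            gcongr
        _ = K⁻¹ ^ 2 * (‖w i j'‖ ^ 2 / m j') := by field_simp
    have h5 : K⁻¹ * W ≤ K / 2 * (1 + K⁻¹ ^ 2 * W) := by
      refine h1.trans ?_
      gcongr
    have h6 : K / 2 * (1 + K⁻¹ ^ 2 * W) = K / 2 + K⁻¹ * W / 2 := by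
      field_simp
    rw [h6] at h5
    have h7 : K⁻¹ * W ≤ K := by linarith
    rw [inv_mul_le_iff₀ hK0] at h7
    linarith [h7, sq K]
  have hQ : ∀ j, ∑ j', ‖Q j j'‖ ^ 2 ≤ 2 ^ 2 := by
    intro j
    calc ∑ j', ‖Q j j'‖ ^ 2 ≤ ∑ j', m j' := by
          refine sum_le_sum fun j' _ => ?_
          simp only [Q, norm_mul, mul_pow, Complex.norm_real]
          rw [Real.norm_of_nonneg (by positivity), Real.sq_sqrt (hmpos j').le]
          have h7 : ‖Y j j'‖ ^ 2 ≤ 1 := pow_le_one₀ (norm_nonneg _) (hY j j')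
          have := hmpos j'
          nlinarith
      _ = 2 := hmsum
      _ ≤ 2 ^ 2 := by norm_num
  rw [hsum]
  refine (form_le A P Q hK0 two_pos hP hQ).trans ?_
  apply mul_le_mul_of_nonneg_right (groth A hA)
  positivity

end kron

end Pool.Agent.KS62.SXGroth
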