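import Pool.Agent.KS6_2.SX.Ell

/-!
The operators of `Ell.lean` factor through `ℓ_2`.
-/

open Finset Filter Topology
open scoped ZeroAtInfty ENNReal

set_option maxHeartbeats 400000

namespace Pool.Agent.KS62.SX

variable {𝕜 : Type} [RCLike 𝕜]

/-- the inclusion of `c_00` in `ℓ_2` -/
noncomputable def e2 : (ℕ+ →₀ 𝕜) →ₗ[𝕜] lp (fun _ : ℕ+ => 𝕜) 2 :=
  Finsupp.linearCombination 𝕜 fun j => lp.single 2 j (1 : 𝕜)

theorem e2_eq (x : ℕ+ →₀ 𝕜) : e2 x = ∑ j ∈ x.support, lp.single 2 j (x j) := by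
  unfold e2
  rw [Finsupp.linearCombination_apply, Finsupp.sum]
  exact sum_congr rfl fun j _ => by rw [← lp.single_smul, smul_eq_mul, mul_one]

theorem e2_norm (x : ℕ+ →₀ 𝕜) : ‖(e2 x : lp (fun _ : ℕ+ => 𝕜) 2)‖ = Real.sqrt (sq2 x) := by
  have h := lp.norm_sum_single (E := fun _ : ℕ+ => 𝕜) (p := 2) (by norm_num) (fun j => x j)
    x.support
  rw [← e2_eq] at h
  have h2 : (2 : ℝ≥0∞).toReal = ((2 : ℕ) : ℝ) := by norm_num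
  rw [h2] at h
  simp_rw [Real.rpow_natCast] at h
  symm
  unfold sq2
  rw [← h, Real.sqrt_sq (norm_nonneg _)]

theorem e2_dense : DenseRange (e2 : (ℕ+ →₀ 𝕜) →ₗ[𝕜] lp (fun _ : ℕ+ => 𝕜) 2) := by
  intro f
  have h := lp.hasSum_single (E := fun _ : ℕ+ => 𝕜) (p := 2) (by norm_num) f
  refine mem_closure_of_tendsto h (Eventually.of_forall fun s => ?_)
  refine ⟨∑ j ∈ s, Finsupp.single j (f j), ?_⟩
  rw [map_sum]
  apply sum_congr rfl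
  intro j _
  unfold e2
  rw [Finsupp.linearCombination_single, ← lp.single_smul, smul_eq_mul, mul_one]

theorem Dat.factor_hilbert {n : ℕ} (hn : 1 ≤ n) {N : Set ℕ+} {w : Idx → (ℕ+ →₀ ℝ)}
    (hw : Sys n N w) (d : Dat) {m : ℕ+ → 𝕜} {C : ℝ} (hm : ∀ j, ‖m j‖ ≤ C) :
    ∃ (B : X 𝕜 n →L[𝕜] lp (fun _ : ℕ+ => 𝕜) 2) (A : lp (fun _ : ℕ+ => 𝕜) 2 →L[𝕜] X 𝕜 n),
      d.Wop n w m = A ∘L B := by
  obtain ⟨A, hA⟩ : ∃ A : lp (fun _ : ℕ+ => 𝕜) 2 →L[𝕜] X 𝕜 n,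
      ∀ x, A (e2 x) = inc 𝕜 n (J w (d.D x)) := by
    have h := fun x => LinearMap.extendOfNorm_eq
      (f := (inc 𝕜 n).comp ((J w).comp (d.D (𝕜 := 𝕜)))) (e := e2) e2_dense ⟨3, fun x => by
        rw [e2_norm, LinearMap.comp_apply, inc_norm]
        exact d.JD_le hw x⟩ x
    exact ⟨_, h⟩
  obtain ⟨B, hB⟩ : ∃ B : X 𝕜 n →L[𝕜] lp (fun _ : ℕ+ => 𝕜) 2,
      ∀ x, B (inc 𝕜 n x) = e2 x := by
    have h := fun x => LinearMap.extendOfNorm_eq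
      (f := e2 (𝕜 := 𝕜)) (e := inc 𝕜 n) (inc_dense n) ⟨3, fun x => by
        rw [e2_norm, inc_norm]
        have h1 := Real.sqrt_le_sqrt (sq2_le_nrm hn x)
        rwa [Real.sqrt_sq (by have := nrm_nonneg n x; positivity)] at h1⟩ x
    exact ⟨_, h⟩
  refine ⟨B ∘L ext n (mulM m), A, ?_⟩
  apply ext_unique
  intro x
  rw [d.W_inc hn hw hm, ContinuousLinearMap.comp_apply, ContinuousLinearMap.comp_apply,
    ext_inc (mulM_nrm hm n), hB, hA]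

theorem main4 (𝕜 : Type) [RCLike 𝕜] (n : ℕ) (hn : 1 ≤ n) :
    ∃ Φ : lp (fun _ : ℕ => 𝕜) ∞ →L[𝕜] Op 𝕜 n,
      (∀ a, StrictlySingular (Φ a)) ∧
      (∀ a, ∃ (B : X 𝕜 n →L[𝕜] lp (fun _ : ℕ+ => 𝕜) 2)
        (A : lp (fun _ : ℕ+ => 𝕜) 2 →L[𝕜] X 𝕜 n), Φ a = A ∘L B) ∧
      ∀ a, ∀ S ∈ closure (factCK 𝕜 n), ‖a‖ ≤ ‖Φ a - S‖ := by
  obtain ⟨m, rfl⟩ : ∃ m, n = m + 1 := ⟨n - 1, by omega⟩
  obtain ⟨w, hw⟩ := exists_sys m Set.univ Set.infinite_univ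
  obtain ⟨I, c, hI, hc0, hc, hcs⟩ := exists_groups hw
  obtain ⟨d, rfl⟩ := exists_dat I hI
  set φ : ℕ → ℕ := fun k => (Nat.unpair k).1 with hφ
  have hcoord : ∀ (a : lp (fun _ : ℕ => 𝕜) ∞) (i : ℕ), ‖a i‖ ≤ ‖a‖ := fun a i =>
    lp.norm_apply_le_norm ENNReal.top_ne_zero a i
  have hμ : ∀ (a : lp (fun _ : ℕ => 𝕜) ∞) (j : ℕ+), ‖d.mu φ (fun i => a i) j‖ ≤ ‖a‖ :=
    fun a j => d.mu_norm φ _ (hcoord a) j
  let Φ0 : lp (fun _ : ℕ => 𝕜) ∞ →ₗ[𝕜] Op 𝕜 (m + 1) :=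
    { toFun := fun a => d.Wop (m + 1) w (d.mu φ (fun i => a i))
      map_add' := fun a b => d.W_add hn hw (hμ a) (hμ b) (hμ (a + b)) fun j =>
        d.mu_add φ (fun i => a i) (fun i => b i) j
      map_smul' := fun r a => d.W_smul hn hw r (hμ a) (hμ (r • a)) fun j =>
        d.mu_smul φ r (fun i => a i) j }
  refine ⟨Φ0.mkContinuous 9 fun a => d.W_norm hn hw (hμ a), fun a => d.W_ss hn hw (hμ a),
    fun a => d.factor_hilbert hn hw (hμ a), fun a S hS => ?_⟩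
  refine lp.norm_le_of_forall_le (norm_nonneg _) fun i => ?_
  exact d.dist_le hn hw c hc0 hc hcs (fun i => a i) (hcoord a) i S hS

end Pool.Agent.KS62.SX
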