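import Pool.Agent.KS6_2.SX.Space
import Pool.Agent.KS6_2.SX.CZero

/-!
Spatial ideals of the operators on Schreier spaces and operators factoring through `c_0`.
-/

open Finset Filter Topology
open scoped ZeroAtInfty

set_option maxHeartbeats 400000

namespace Pool.Agent.KS62.SX

variable {𝕜 : Type} [RCLike 𝕜]

/-- The bounded operators on the Schreier space. -/
abbrev Op (𝕜 : Type) [RCLike 𝕜] (n : ℕ) : Type := X 𝕜 n →L[𝕜] X 𝕜 n

/-- The compact operators on the Schreier space. -/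
def compacts (𝕜 : Type) [RCLike 𝕜] (n : ℕ) : Set (Op 𝕜 n) := {T | IsCompactOperator T}

/-- A closed two-sided ideal of the algebra of bounded operators. -/
structure IsClosedIdeal {𝕜 : Type} [RCLike 𝕜] {n : ℕ} (I : Set (Op 𝕜 n)) : Prop where
  closed : IsClosed I
  zero : (0 : Op 𝕜 n) ∈ I
  add : ∀ S ∈ I, ∀ T ∈ I, S + T ∈ I
  mul : ∀ A B : Op 𝕜 n, ∀ T ∈ I, A * T * B ∈ I

/-- The closed two-sided ideal of the bounded operators generated by the basis projection `P_N`. -/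
def spatial (𝕜 : Type) [RCLike 𝕜] (n : ℕ) (N : Set ℕ+) : Set (Op 𝕜 n) :=
  {T | ∀ I : Set (Op 𝕜 n), IsClosedIdeal I → P n N ∈ I → T ∈ I}

/-- The non-trivial spatial ideals. -/
def NontrivialSpatial (𝕜 : Type) [RCLike 𝕜] (n : ℕ) (I : Set (Op 𝕜 n)) : Prop :=
  (∃ N : Set ℕ+, N.Nonempty ∧ I = spatial 𝕜 n N) ∧ compacts 𝕜 n ⊂ I ∧ I ⊂ Set.univ

/-- The operators which factor through `c_0`. -/
def factC0 (𝕜 : Type) [RCLike 𝕜] (n : ℕ) : Set (Op 𝕜 n) :=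
  {T | ∃ (A : C₀(ℕ, 𝕜) →L[𝕜] X 𝕜 n) (B : X 𝕜 n →L[𝕜] C₀(ℕ, 𝕜)), ∀ x, T x = A (B x)}

/-- The functional `x ↦ (Qm w x) I` on the Schreier space. -/
noncomputable def fn (n : ℕ) (w : Idx → (ℕ+ →₀ ℝ)) (I : Idx) : X 𝕜 n →L[𝕜] 𝕜 :=
  ((Finsupp.lapply I).comp (Qm w) : (ℕ+ →₀ 𝕜) →ₗ[𝕜] 𝕜).extendOfNorm (inc 𝕜 n)

theorem fn_inc {n : ℕ} {N : Set ℕ+} {w : Idx → (ℕ+ →₀ ℝ)} (hw : Sys n N w) (I : Idx)
    (x : ℕ+ →₀ 𝕜) : fn n w I (inc 𝕜 n x) = Qm w x I := by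
  have h := LinearMap.extendOfNorm_eq (f := ((Finsupp.lapply I).comp (Qm w) : (ℕ+ →₀ 𝕜) →ₗ[𝕜] 𝕜))
    (e := inc 𝕜 n) (inc_dense n) ⟨1, fun x => by
      rw [inc_norm, one_mul]
      refine le_trans ?_ (Qm_le hw x I.1)
      exact Finset.single_le_sum (f := fun i : Fin (I.1 + 1) => ‖Qm w x ⟨I.1, i⟩‖)
        (fun i _ => norm_nonneg _) (mem_univ I.2)⟩ x
  exact h

theorem fn_sum_le {n : ℕ} {N : Set ℕ+} {w : Idx → (ℕ+ →₀ ℝ)} (hw : Sys n N w) (m : ℕ)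
    (x : X 𝕜 n) : ∑ i : Fin (m + 1), ‖fn n w ⟨m, i⟩ x‖ ≤ ‖x‖ := by
  refine (inc_dense n).induction_on x (isClosed_le ?_ continuous_norm) fun x => ?_
  · exact continuous_finsetSum _ fun i _ => (fn n w ⟨m, i⟩).continuous.norm
  · simp_rw [fn_inc hw, inc_norm]
    exact Qm_le hw x m

theorem fn_le {n : ℕ} {N : Set ℕ+} {w : Idx → (ℕ+ →₀ ℝ)} (hw : Sys n N w) (I : Idx)
    (x : X 𝕜 n) : ‖fn n w I x‖ ≤ ‖x‖ :=
  (Finset.single_le_sum (f := fun i : Fin (I.1 + 1) => ‖fn n w ⟨I.1, i⟩ x‖)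
        (fun i _ => norm_nonneg _) (mem_univ I.2)).trans (fn_sum_le hw I.1 x)

theorem not_mem_closure {n : ℕ} {N : Set ℕ+} {w : Idx → (ℕ+ →₀ ℝ)} (hw : Sys n N w) :
    (ext n (R w w) : X 𝕜 n →L[𝕜] X 𝕜 n) ∉ closure (factC0 𝕜 n) := by
  intro hmem
  rw [Metric.mem_closure_iff] at hmem
  obtain ⟨S, ⟨A, B, hSAB⟩, hS⟩ := hmem (1 / 6) (by norm_num)
  obtain rfl : S = A ∘L B := ContinuousLinearMap.ext hSAB
  rw [dist_eq_norm] at hS
  set T : X 𝕜 n →L[𝕜] X 𝕜 n := ext n (R w w) with hT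
  -- the vectors
  set e : Idx → X 𝕜 n := fun I => inc 𝕜 n (J w (Finsupp.single I 1)) with he
  have he3 : ∀ I, ‖e I‖ ≤ 3 := by
    intro I
    rw [he]
    simp only
    rw [inc_norm]
    have := J_le hw (Finsupp.single I (1 : 𝕜)) 1 zero_le_one (fun m => by
      classical
      by_cases hm : I.1 = m
      · obtain ⟨m', i'⟩ := I
        simp only at hm
        subst hm
        rw [sum_eq_single_of_mem i' (mem_univ _)]
        · simp
        · intro i _ hi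
          rw [Finsupp.single_apply, if_neg, norm_zero]
          intro h
          exact hi (by simpa using h.symm)
      · refine le_trans (le_of_eq (sum_eq_zero fun i _ => ?_)) zero_le_one
        rw [Finsupp.single_apply, if_neg, norm_zero]
        rintro rfl
        exact hm rfl)
    simpa using this
  have hTe : ∀ I, T (e I) = e I := by
    intro I
    rw [hT, he]
    simp only
    rw [ext_inc (R_le hw hw)]
    unfold R
    rw [LinearMap.comp_apply, Qm_J hw]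
  have hfe : ∀ I, fn n w I (e I) = 1 := by
    intro I
    rw [he]
    simp only
    rw [fn_inc hw, Qm_J hw, Finsupp.single_eq_same]
  have hAB : ∀ I, 1 / 2 ≤ ‖fn n w I (A (B (e I)))‖ := by
    intro I
    have h1 : fn n w I (A (B (e I))) = 1 - fn n w I ((T - A ∘L B) (e I)) := by
      rw [← hfe I, ← map_sub]
      congr 1
      rw [sub_apply, hTe, ContinuousLinearMap.comp_apply]
      abel
    have h2 : ‖fn n w I ((T - A ∘L B) (e I))‖ ≤ 1 / 2 := by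
      refine (fn_le hw I _).trans ((ContinuousLinearMap.le_opNorm _ _).trans ?_)
      have := he3 I
      nlinarith [norm_nonneg (e I), norm_nonneg (T - A ∘L B)]
    rw [h1]
    have h3 := norm_sub_norm_le (1 : 𝕜) (fn n w I ((T - A ∘L B) (e I)))
    rw [norm_one] at h3
    linarith
  -- apply the non-factorization lemma for all k
  have key : ∀ m : ℕ, ((m + 1 : ℕ) : ℝ) / 4 ≤
      3 * ‖B‖ * (Real.sqrt ((m + 1 : ℕ) : ℝ) * (9 / 5 * ‖A‖)) := by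
    intro m
    let Φ : ℕ → (C₀(ℕ, 𝕜) →L[𝕜] 𝕜) := fun i =>
      if h : i < m + 1 then (fn n w ⟨m, ⟨i, h⟩⟩) ∘L A else 0
    let b : ℕ → C₀(ℕ, 𝕜) := fun i => if h : i < m + 1 then B (e ⟨m, ⟨i, h⟩⟩) else 0
    refine no_factor (m + 1) Φ b ‖A‖ (3 * ‖B‖) A.opNorm_nonneg
      (mul_nonneg (by norm_num) B.opNorm_nonneg) ?_ ?_ ?_
    · intro x
      rw [Finset.sum_range]
      have : ∑ i : Fin (m + 1), ‖Φ i x‖ = ∑ i : Fin (m + 1), ‖fn n w ⟨m, i⟩ (A x)‖ := by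
        apply sum_congr rfl
        intro i _
        have : Φ i = (fn n w ⟨m, i⟩) ∘L A := dif_pos i.2
        rw [this, ContinuousLinearMap.comp_apply]
      rw [this]
      exact (fn_sum_le hw m (A x)).trans (A.le_opNorm x)
    · intro i hi
      have hi' := mem_range.mp hi
      have : b i = B (e ⟨m, ⟨i, hi'⟩⟩) := dif_pos hi'
      rw [this]
      have h1 := B.le_opNorm (e ⟨m, ⟨i, hi'⟩⟩)
      have h2 := he3 ⟨m, ⟨i, hi'⟩⟩
      nlinarith [norm_nonneg B]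
    · intro i hi
      have hi' := mem_range.mp hi
      have h1 : b i = B (e ⟨m, ⟨i, hi'⟩⟩) := dif_pos hi'
      have h2 : Φ i = (fn n w ⟨m, ⟨i, hi'⟩⟩) ∘L A := dif_pos hi'
      rw [h1, h2, ContinuousLinearMap.comp_apply]
      exact hAB _
  -- contradiction for large k
  obtain ⟨m, hm⟩ := exists_nat_gt ((4 * (3 * ‖B‖ * (9 / 5 * ‖A‖))) ^ 2)
  have h1 := key m
  set s := Real.sqrt ((m + 1 : ℕ) : ℝ) with hs
  have hs2 : s ^ 2 = ((m + 1 : ℕ) : ℝ) := Real.sq_sqrt (by positivity)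
  have hs0 : 0 < s := Real.sqrt_pos.mpr (by positivity)
  have h2 : s ≤ 4 * (3 * ‖B‖ * (9 / 5 * ‖A‖)) := by
    rw [← hs2] at h1
    have : s * s ≤ s * (4 * (3 * ‖B‖ * (9 / 5 * ‖A‖))) := by nlinarith
    exact le_of_mul_le_mul_left this hs0
  have h3 : s ^ 2 ≤ (4 * (3 * ‖B‖ * (9 / 5 * ‖A‖))) ^ 2 := by gcongr
  rw [hs2] at h3
  push_cast at h3
  linarith

/-- The map from finitely supported sequences to `c_0`. -/
noncomputable def inc0 : (ℕ →₀ 𝕜) →ₗ[𝕜] C₀(ℕ, 𝕜) := Finsupp.linearCombination 𝕜 dl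

theorem inc0_apply (c : ℕ →₀ 𝕜) (m : ℕ) : (inc0 c : C₀(ℕ, 𝕜)) m = c m := by
  induction c using Finsupp.induction_linear with
  | zero => simp
  | add f g hf hg => rw [map_add, ZeroAtInftyContinuousMap.add_apply, hf, hg]; rfl
  | single a b =>
    unfold inc0
    rw [Finsupp.linearCombination_single, ZeroAtInftyContinuousMap.smul_apply, dl_apply,
      Finsupp.single_apply]
    by_cases h : m = a
    · rw [if_pos h, if_pos h.symm]; simp
    · rw [if_neg h, if_neg (Ne.symm h)]; simp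

theorem inc0_dense : DenseRange (inc0 : (ℕ →₀ 𝕜) →ₗ[𝕜] C₀(ℕ, 𝕜)) := by
  intro x
  refine mem_closure_of_tendsto (trunc_tendsto x) (Eventually.of_forall fun M => ?_)
  refine ⟨∑ l ∈ range M, Finsupp.single l (x l), ?_⟩
  rw [map_sum]
  apply sum_congr rfl
  intro l _
  unfold inc0
  rw [Finsupp.linearCombination_single]

theorem inc0_norm_le (c : ℕ →₀ 𝕜) {C : ℝ} (hC : 0 ≤ C) (h : ∀ m, ‖c m‖ ≤ C) :
    ‖(inc0 c : C₀(ℕ, 𝕜))‖ ≤ C := c0_norm_le hC fun m => by rw [inc0_apply]; exact h m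

theorem coord_le_inc0 (c : ℕ →₀ 𝕜) (m : ℕ) : ‖c m‖ ≤ ‖(inc0 c : C₀(ℕ, 𝕜))‖ := by
  rw [← inc0_apply]; exact c0_coord_le _ m

/-- first member of each block -/
def fst (m : ℕ) : Idx := ⟨m, 0⟩

theorem fst_inj : Function.Injective fst := fun m m' h => by
  have := congrArg Sigma.fst h
  exact this

noncomputable def f1 (n : ℕ) (w : Idx → (ℕ+ →₀ ℝ)) : (ℕ →₀ 𝕜) →ₗ[𝕜] X 𝕜 n :=
  (inc 𝕜 n).comp ((J w).comp (Finsupp.lmapDomain 𝕜 𝕜 fst))

noncomputable def f2 (w : Idx → (ℕ+ →₀ ℝ)) : (ℕ+ →₀ 𝕜) →ₗ[𝕜] C₀(ℕ, 𝕜) :=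
  inc0.comp ((Finsupp.lcomapDomain fst fst_inj).comp (Qm w))

theorem f1_eq (n : ℕ) (w : Idx → (ℕ+ →₀ ℝ)) (c : ℕ →₀ 𝕜) :
    f1 n w c = inc 𝕜 n (J w (Finsupp.mapDomain fst c)) := rfl

theorem f2_eq (w : Idx → (ℕ+ →₀ ℝ)) (x : ℕ+ →₀ 𝕜) :
    f2 w x = inc0 (Finsupp.comapDomain fst (Qm w x) fst_inj.injOn) := rfl

attribute [irreducible] f1 f2

theorem f1_le {n : ℕ} {N : Set ℕ+} {w : Idx → (ℕ+ →₀ ℝ)} (hw : Sys n N w) (c : ℕ →₀ 𝕜) :
    ‖f1 n w c‖ ≤ 3 * ‖(inc0 c : C₀(ℕ, 𝕜))‖ := by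
  rw [f1_eq, inc_norm]
  refine J_le hw _ _ (norm_nonneg _) fun m => ?_
  rw [sum_eq_single_of_mem (0 : Fin (m + 1)) (mem_univ _)]
  · show ‖(Finsupp.mapDomain fst c) (fst m)‖ ≤ _
    rw [Finsupp.mapDomain_apply fst_inj]
    exact coord_le_inc0 c m
  · intro i _ hi
    rw [Finsupp.mapDomain_of_notMem_range, norm_zero]
    rintro ⟨m', hm'⟩
    apply hi
    unfold fst at hm'
    rw [Sigma.mk.injEq] at hm'
    obtain ⟨rfl, h⟩ := hm'
    exact (eq_of_heq h).symm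

theorem f2_le {n : ℕ} {N : Set ℕ+} {w : Idx → (ℕ+ →₀ ℝ)} (hw : Sys n N w) (x : ℕ+ →₀ 𝕜) :
    ‖(f2 w x : C₀(ℕ, 𝕜))‖ ≤ 1 * ‖inc 𝕜 n x‖ := by
  rw [inc_norm, one_mul, f2_eq]
  refine inc0_norm_le _ (nrm_nonneg n x) fun m => ?_
  show ‖Qm w x (fst m)‖ ≤ _
  refine le_trans ?_ (Qm_le hw x m)
  exact Finset.single_le_sum (f := fun i : Fin (m + 1) => ‖Qm w x ⟨m, i⟩‖)
      (fun i _ => norm_nonneg _) (mem_univ 0)

theorem exists_c0 {n : ℕ} {N : Set ℕ+} {w : Idx → (ℕ+ →₀ ℝ)} (hw : Sys n N w) :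
    ∃ (A : C₀(ℕ, 𝕜) →L[𝕜] X 𝕜 n) (B : X 𝕜 n →L[𝕜] C₀(ℕ, 𝕜)),
      ∀ x, B (P n N (A x)) = x := by
  obtain ⟨A, hA⟩ : ∃ A : C₀(ℕ, 𝕜) →L[𝕜] X 𝕜 n, ∀ c, A (inc0 c) = f1 n w c :=
    ⟨(f1 n w).extendOfNorm inc0, fun c => LinearMap.extendOfNorm_eq inc0_dense
      ⟨3, fun c => f1_le hw c⟩ c⟩
  obtain ⟨B, hB⟩ : ∃ B : X 𝕜 n →L[𝕜] C₀(ℕ, 𝕜), ∀ x, B (inc 𝕜 n x) = f2 w x := by
    have h := fun x => LinearMap.extendOfNorm_eq (f := f2 (𝕜 := 𝕜) w) (e := inc 𝕜 n)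
      (inc_dense n) ⟨1, fun x => f2_le hw x⟩ x
    exact ⟨_, h⟩
  refine ⟨A, B, fun x => ?_⟩
  refine inc0_dense.induction_on x (isClosed_eq ?_ continuous_id) fun c => ?_
  · exact (B.continuous.comp (P n N).continuous).comp A.continuous
  · rw [hA, f1_eq, P_inc]
    have h3 : restr N (J w (Finsupp.mapDomain fst c)) = J w (Finsupp.mapDomain fst c) := by
      have := restr_R (w := w) hw (J w (Finsupp.mapDomain fst c))
      unfold R at this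
      rwa [LinearMap.comp_apply, Qm_J hw] at this
    rw [h3, hB, f2_eq, Qm_J hw, Finsupp.comapDomain_mapDomain _ fst_inj]

theorem restr_finite_rank {n : ℕ} {N : Set ℕ+} (hN : N.Finite) :
    IsCompactOperator (P n N : X 𝕜 n →L[𝕜] X 𝕜 n) := by
  classical
  -- coordinate functionals
  let cf : ℕ+ → (X 𝕜 n →L[𝕜] 𝕜) := fun j =>
    (Finsupp.lapply j : (ℕ+ →₀ 𝕜) →ₗ[𝕜] 𝕜).extendOfNorm (inc 𝕜 n)
  have hcf : ∀ j x, cf j (inc 𝕜 n x) = x j := fun j x =>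
    LinearMap.extendOfNorm_eq (f := (Finsupp.lapply j : (ℕ+ →₀ 𝕜) →ₗ[𝕜] 𝕜)) (inc_dense n)
      ⟨1, fun x => by rw [inc_norm, one_mul]; exact coord_le_nrm n x j⟩ x
  have h1 : (P n N : X 𝕜 n →L[𝕜] X 𝕜 n) =
      ∑ j ∈ hN.toFinset, (cf j).smulRight (inc 𝕜 n (Finsupp.single j 1)) := by
    apply ext_unique
    intro x
    rw [P_inc, _root_.sum_apply]
    simp_rw [ContinuousLinearMap.smulRight_apply, hcf, ← map_smul, ← map_sum]
    congr 1
    apply Finsupp.ext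
    intro l
    rw [restr_apply, Finsupp.finsetSum_apply]
    simp_rw [Finsupp.smul_apply, Finsupp.single_apply, smul_eq_mul, mul_ite, mul_one, mul_zero]
    rw [Finset.sum_ite_eq' hN.toFinset l (fun j => x j)]
    simp
  rw [h1]
  have h2 : ∀ s : Finset ℕ+, IsCompactOperator
      (∑ j ∈ s, (cf j).smulRight (inc 𝕜 n (Finsupp.single j 1)) : X 𝕜 n →L[𝕜] X 𝕜 n) := by
    intro s
    induction s using Finset.induction_on with
    | empty => rw [sum_empty]; exact isCompactOperator_zero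
    | insert a s ha ih =>
      rw [sum_insert ha]
      refine IsCompactOperator.add ?_ ih
      have h3 : IsCompactOperator (id : 𝕜 → 𝕜) := isCompactOperator_id
      have h4 := h3.comp_clm (cf a)
      exact h4.clm_comp (ContinuousLinearMap.toSpanSingleton 𝕜 (inc 𝕜 n (Finsupp.single a 1)))
  exact h2 _

theorem isClosedIdeal_compacts (n : ℕ) : IsClosedIdeal (compacts 𝕜 n) where
  closed := isClosed_setOfPred_isCompactOperator
  zero := isCompactOperator_zero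
  add _ hS _ hT := IsCompactOperator.add hS hT
  mul A B _ hT := IsCompactOperator.comp_clm (IsCompactOperator.clm_comp hT A) B

theorem infinite_of_nontrivial {n : ℕ} {N : Set ℕ+} (h : compacts 𝕜 n ⊂ spatial 𝕜 n N) :
    N.Infinite := by
  intro hN
  apply h.2
  intro T hT
  exact hT _ (isClosedIdeal_compacts n) (restr_finite_rank hN)

theorem idem {n : ℕ} {N : Set ℕ+} {w : Idx → (ℕ+ →₀ ℝ)} (hw : Sys n N w) :
    (ext n (R w w) : X 𝕜 n →L[𝕜] X 𝕜 n) * ext n (R w w) = ext n (R w w) := by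
  apply ext_unique
  intro x
  show (ext n (R w w)) ((ext n (R w w)) (inc 𝕜 n x)) = _
  rw [ext_inc (R_le hw hw), ext_inc (R_le hw hw), R_comp hw]

theorem exists_proj (𝕜 : Type) [RCLike 𝕜] (n : ℕ) (hn : 1 ≤ n) :
    ∃ T : Op 𝕜 n, T * T = T ∧
      (∀ N : Set ℕ+, N.Infinite → T ∈ spatial 𝕜 n N) ∧ T ∉ closure (factC0 𝕜 n) := by
  obtain ⟨n, rfl⟩ : ∃ m, n = m + 1 := ⟨n - 1, by omega⟩
  obtain ⟨w, hw⟩ := exists_sys n Set.univ Set.infinite_univ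
  refine ⟨_, idem hw, fun N hN => ?_, not_mem_closure (𝕜 := 𝕜) hw⟩
  obtain ⟨v, hv⟩ := exists_sys n N hN
  intro I hI hP
  rw [factor hw hv]
  exact hI.mul _ _ _ hP

theorem main (𝕜 : Type) [RCLike 𝕜] (n : ℕ) (hn : 1 ≤ n) :
    closure (factC0 𝕜 n) ⊂ ⋂₀ {I | NontrivialSpatial 𝕜 n I} := by
  constructor
  · obtain ⟨n, rfl⟩ : ∃ m, n = m + 1 := ⟨n - 1, by omega⟩
    rintro T hT _ ⟨⟨N, -, rfl⟩, hc, -⟩
    have hN := infinite_of_nontrivial hc
    obtain ⟨w, hw⟩ := exists_sys n N hN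
    intro I hI hP
    have hsub : factC0 𝕜 (n + 1) ⊆ I := by
      rintro T ⟨A, B, hT⟩
      obtain ⟨A', B', hAB⟩ := exists_c0 (𝕜 := 𝕜) hw
      have h1 : T = (A ∘L B') * (P (n + 1) N) * (A' ∘L B) := by
        apply ContinuousLinearMap.ext
        intro x
        show T x = A (B' (P (n + 1) N (A' (B x))))
        rw [hAB, hT]
      rw [h1]
      exact hI.mul _ _ _ hP
    exact closure_minimal hsub hI.closed hT
  · intro hsub
    obtain ⟨T, -, hT, hT'⟩ := exists_proj 𝕜 n hn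
    refine hT' (hsub ?_)
    rintro _ ⟨⟨N, -, rfl⟩, hc, -⟩
    exact hT N (infinite_of_nontrivial hc)

end Pool.Agent.KS62.SX
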