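import Pool.Agent.KS6_2.SX.Comb

/-!
The Schreier spaces `X[Sch n]` as completions of `c_00`, basis projections, and the operators
between block systems.
-/

open Finset

set_option maxHeartbeats 400000

namespace Pool.Agent.KS62.SX

variable {𝕜 : Type} [RCLike 𝕜]

/-- The Schreier norm of a finitely supported sequence:
the supremum of `∑ j ∈ E, ‖x j‖` over `E` in the `n`-th Schreier family. -/
noncomputable def nrm (n : ℕ) (x : ℕ+ →₀ 𝕜) : ℝ := ⨆ E : Sch n, ∑ j ∈ E.1, ‖x j‖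

theorem sum_le_supp (x : ℕ+ →₀ 𝕜) (E : Finset ℕ+) :
    ∑ j ∈ E, ‖x j‖ ≤ ∑ j ∈ x.support, ‖x j‖ := by
  have h1 : ∑ j ∈ E, ‖x j‖ = ∑ j ∈ E ∩ x.support, ‖x j‖ := by
    symm
    apply Finset.sum_subset inter_subset_left
    intro i hi hi'
    by_contra h2
    exact hi' (mem_inter.mpr ⟨hi, Finsupp.mem_support_iff.mpr fun h => h2 (by rw [h, norm_zero])⟩)
  rw [h1]
  exact sum_le_sum_of_subset_of_nonneg inter_subset_right fun j _ _ => norm_nonneg _

theorem bdd (n : ℕ) (x : ℕ+ →₀ 𝕜) :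
    BddAbove (Set.range fun E : Sch n => ∑ j ∈ E.1, ‖x j‖) :=
  ⟨∑ j ∈ x.support, ‖x j‖, by rintro _ ⟨E, rfl⟩; exact sum_le_supp x E.1⟩

theorem le_nrm {n : ℕ} (x : ℕ+ →₀ 𝕜) {E : Finset ℕ+} (hE : E ∈ Sch n) :
    ∑ j ∈ E, ‖x j‖ ≤ nrm n x := le_ciSup (bdd n x) ⟨E, hE⟩

instance (n : ℕ) : Nonempty (Sch n) := ⟨⟨∅, empty_mem n⟩⟩

theorem nrm_le {n : ℕ} {x : ℕ+ →₀ 𝕜} {C : ℝ} (h : ∀ E ∈ Sch n, ∑ j ∈ E, ‖x j‖ ≤ C) :
    nrm n x ≤ C := ciSup_le fun E => h E.1 E.2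

theorem coord_le_nrm (n : ℕ) (x : ℕ+ →₀ 𝕜) (j : ℕ+) : ‖x j‖ ≤ nrm n x := by
  simpa using le_nrm x (singleton_mem n j)

theorem nrm_nonneg (n : ℕ) (x : ℕ+ →₀ 𝕜) : 0 ≤ nrm n x :=
  (norm_nonneg _).trans (coord_le_nrm n x 1)

/-- The space `c_00` of finitely supported scalar sequences, with the `n`-th Schreier norm. -/
def C00 (𝕜 : Type) [RCLike 𝕜] (_n : ℕ) : Type := ℕ+ →₀ 𝕜

noncomputable instance instC00Group (n : ℕ) : AddCommGroup (C00 𝕜 n) :=
  (inferInstance : AddCommGroup (ℕ+ →₀ 𝕜))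
noncomputable instance instC00Module (n : ℕ) : Module 𝕜 (C00 𝕜 n) :=
  (inferInstance : Module 𝕜 (ℕ+ →₀ 𝕜))
noncomputable instance (n : ℕ) : Norm (C00 𝕜 n) := ⟨fun x => nrm n x⟩

theorem nrm_smul (n : ℕ) (c : 𝕜) (x : ℕ+ →₀ 𝕜) : nrm n (c • x) = ‖c‖ * nrm n x := by
  unfold nrm
  rw [Real.mul_iSup_of_nonneg (norm_nonneg c)]
  congr 1
  ext E
  rw [mul_sum]
  exact sum_congr rfl fun j _ => by rw [Finsupp.smul_apply, norm_smul]

theorem nrm_add (n : ℕ) (x y : ℕ+ →₀ 𝕜) : nrm n (x + y) ≤ nrm n x + nrm n y := by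
  apply nrm_le
  intro E hE
  calc ∑ j ∈ E, ‖(x + y) j‖ ≤ ∑ j ∈ E, (‖x j‖ + ‖y j‖) :=
        sum_le_sum fun j _ => by rw [Finsupp.add_apply]; exact norm_add_le _ _
    _ ≤ nrm n x + nrm n y := by
        rw [sum_add_distrib]
        exact add_le_add (le_nrm x hE) (le_nrm y hE)

theorem nrm_eq_zero (n : ℕ) (x : ℕ+ →₀ 𝕜) : nrm n x = 0 ↔ x = 0 := by
  constructor
  · intro h
    apply Finsupp.ext
    intro j
    have := coord_le_nrm n x j
    rw [h] at this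
    exact norm_le_zero_iff.mp this
  · rintro rfl
    refine le_antisymm (nrm_le fun E _ => ?_) (nrm_nonneg n _)
    exact (sum_eq_zero fun j _ => norm_zero).le

theorem core (n : ℕ) : NormedSpace.Core 𝕜 (C00 𝕜 n) where
  norm_nonneg x := nrm_nonneg n x
  norm_smul c x := nrm_smul n c x
  norm_triangle x y := nrm_add n x y
  norm_eq_zero_iff x := nrm_eq_zero n x

noncomputable instance (n : ℕ) : NormedAddCommGroup (C00 𝕜 n) :=
  NormedAddCommGroup.ofCore (core n)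
noncomputable instance (n : ℕ) : NormedSpace 𝕜 (C00 𝕜 n) := NormedSpace.ofCore (core n)

theorem norm_def {n : ℕ} (x : C00 𝕜 n) : ‖x‖ = nrm n (x : ℕ+ →₀ 𝕜) := rfl

/-- The Schreier space `X[S_n]`: the completion of `c_00` in the `n`-th Schreier norm. -/
def X (𝕜 : Type) [RCLike 𝕜] (n : ℕ) : Type := UniformSpace.Completion (C00 𝕜 n)

noncomputable instance instXGroup (n : ℕ) : NormedAddCommGroup (X 𝕜 n) :=
  (inferInstance : NormedAddCommGroup (UniformSpace.Completion (C00 𝕜 n)))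
noncomputable instance instXSpace (n : ℕ) : NormedSpace 𝕜 (X 𝕜 n) :=
  (inferInstance : NormedSpace 𝕜 (UniformSpace.Completion (C00 𝕜 n)))
instance instXComplete (n : ℕ) : CompleteSpace (X 𝕜 n) :=
  (inferInstance : CompleteSpace (UniformSpace.Completion (C00 𝕜 n)))

/-- The inclusion of `c_00` in the Schreier space. -/
noncomputable def inc (𝕜 : Type) [RCLike 𝕜] (n : ℕ) : (ℕ+ →₀ 𝕜) →ₗ[𝕜] X 𝕜 n where
  toFun x := UniformSpace.Completion.coe' (α := C00 𝕜 n) x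
  map_add' x y := UniformSpace.Completion.coe_add (α := C00 𝕜 n) x y
  map_smul' c x := UniformSpace.Completion.coe_smul (X := C00 𝕜 n) c x

theorem inc_norm (n : ℕ) (x : ℕ+ →₀ 𝕜) : ‖inc 𝕜 n x‖ = nrm n x :=
  UniformSpace.Completion.norm_coe (E := C00 𝕜 n) x

theorem inc_dense (n : ℕ) : DenseRange (inc 𝕜 n) :=
  UniformSpace.Completion.denseRange_coe (α := C00 𝕜 n)

attribute [irreducible] inc

/-- The bounded operator on the Schreier space which extends a linear map of `c_00`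
(bounded for the Schreier norm). -/
noncomputable def ext (n : ℕ) (f : (ℕ+ →₀ 𝕜) →ₗ[𝕜] (ℕ+ →₀ 𝕜)) : X 𝕜 n →L[𝕜] X 𝕜 n :=
  ((inc 𝕜 n).comp f).extendOfNorm (inc 𝕜 n)

theorem ext_inc {n : ℕ} {f : (ℕ+ →₀ 𝕜) →ₗ[𝕜] (ℕ+ →₀ 𝕜)} {C : ℝ}
    (hf : ∀ x, nrm n (f x) ≤ C * nrm n x) (x : ℕ+ →₀ 𝕜) :
    ext n f (inc 𝕜 n x) = inc 𝕜 n (f x) :=
  LinearMap.extendOfNorm_eq (f := (inc 𝕜 n).comp f) (e := inc 𝕜 n) (inc_dense n)
    ⟨C, fun x => by
      rw [LinearMap.comp_apply, inc_norm, inc_norm]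
      exact hf x⟩ x

theorem ext_unique {n : ℕ} {A B : X 𝕜 n →L[𝕜] X 𝕜 n}
    (h : ∀ x, A (inc 𝕜 n x) = B (inc 𝕜 n x)) : A = B := by
  apply ContinuousLinearMap.ext
  intro x
  exact (inc_dense n).induction_on x (isClosed_eq A.continuous B.continuous) h

open Classical in
/-- the restriction of a finitely supported sequence to `N` -/
noncomputable def restr (N : Set ℕ+) : (ℕ+ →₀ 𝕜) →ₗ[𝕜] (ℕ+ →₀ 𝕜) where
  toFun x := x.filter (· ∈ N)
  map_add' _ _ := Finsupp.filter_add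
  map_smul' _ _ := Finsupp.filter_smul

open Classical in
theorem restr_apply (N : Set ℕ+) (x : ℕ+ →₀ 𝕜) (j : ℕ+) :
    restr N x j = if j ∈ N then x j else 0 := Finsupp.filter_apply _ _ _

theorem restr_le (n : ℕ) (N : Set ℕ+) (x : ℕ+ →₀ 𝕜) : nrm n (restr N x) ≤ 1 * nrm n x := by
  classical
  rw [one_mul]
  apply nrm_le
  intro E hE
  refine le_trans (sum_le_sum fun j _ => ?_) (le_nrm x hE)
  rw [restr_apply]
  split_ifs
  · exact le_rfl
  · rw [norm_zero]; exact norm_nonneg _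

/-- The basis projection `P_N`. -/
noncomputable def P (n : ℕ) (N : Set ℕ+) : X 𝕜 n →L[𝕜] X 𝕜 n := ext n (restr N)

theorem P_inc (n : ℕ) (N : Set ℕ+) (x : ℕ+ →₀ 𝕜) :
    P n N (inc 𝕜 n x) = inc 𝕜 n (restr N x) := ext_inc (restr_le n N) x

/-- Synthesis operator of a system. -/
noncomputable def J (w : Idx → (ℕ+ →₀ ℝ)) : (Idx →₀ 𝕜) →ₗ[𝕜] (ℕ+ →₀ 𝕜) :=
  Finsupp.linearCombination 𝕜 fun I => (w I).mapRange (algebraMap ℝ 𝕜) (map_zero _)

theorem J_apply (w : Idx → (ℕ+ →₀ ℝ)) (z : Idx →₀ 𝕜) (j : ℕ+) :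
    J w z j = ∑ I ∈ z.support, z I * (algebraMap ℝ 𝕜 (w I j)) := by
  unfold J
  rw [Finsupp.linearCombination_apply, Finsupp.sum, Finsupp.finsetSum_apply]
  rfl

open Classical in
/-- Analysis operator of a system. -/
noncomputable def Qm (w : Idx → (ℕ+ →₀ ℝ)) : (ℕ+ →₀ 𝕜) →ₗ[𝕜] (Idx →₀ 𝕜) :=
  Finsupp.linearCombination 𝕜 fun j =>
    if h : ∃ I, j ∈ (w I).support then Finsupp.single h.choose 1 else 0

theorem Qm_apply {n : ℕ} {N : Set ℕ+} {w : Idx → (ℕ+ →₀ ℝ)} (hw : Sys n N w) (x : ℕ+ →₀ 𝕜)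
    (I : Idx) : Qm w x I = ∑ j ∈ (w I).support, x j := by
  classical
  induction x using Finsupp.induction_linear with
  | zero => simp
  | add f g hf hg =>
    rw [map_add, Finsupp.add_apply, hf, hg, ← sum_add_distrib]
    rfl
  | single a b =>
    unfold Qm
    rw [Finsupp.linearCombination_single, Finsupp.smul_apply]
    by_cases h : ∃ I, a ∈ (w I).support
    · rw [dif_pos h]
      have hc := h.choose_spec
      by_cases haI : a ∈ (w I).support
      · have : h.choose = I := by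
          by_contra hne
          exact (Finset.disjoint_left.mp (hw.disj _ _ hne)) hc haI
        rw [this, Finsupp.single_eq_same, smul_eq_mul, mul_one]
        rw [sum_eq_single_of_mem a haI]
        · simp
        · intro c _ hca
          rw [Finsupp.single_apply, if_neg (Ne.symm hca)]
      · rw [Finsupp.single_apply, if_neg (by rintro rfl; exact haI hc), smul_zero]
        symm
        apply sum_eq_zero
        intro c hcI
        rw [Finsupp.single_apply, if_neg (by rintro rfl; exact haI hcI)]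
    · rw [dif_neg h, Finsupp.zero_apply, smul_zero]
      symm
      apply sum_eq_zero
      intro c hcI
      rw [Finsupp.single_apply, if_neg (by rintro rfl; exact h ⟨I, hcI⟩)]

theorem Qm_J {n : ℕ} {N : Set ℕ+} {w : Idx → (ℕ+ →₀ ℝ)} (hw : Sys n N w) (z : Idx →₀ 𝕜) :
    Qm w (J w z) = z := by
  classical
  apply Finsupp.ext
  intro I
  rw [Qm_apply hw]
  simp_rw [J_apply]
  rw [sum_comm]
  have h1 : ∀ I' ∈ z.support, ∑ j ∈ (w I).support, z I' * algebraMap ℝ 𝕜 (w I' j) =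
      if I' = I then z I' else 0 := by
    intro I' _
    rw [← mul_sum, ← map_sum]
    split_ifs with h
    · subst h
      rw [(hw.av I').sum_one, map_one, mul_one]
    · have : ∑ j ∈ (w I).support, w I' j = 0 := sum_eq_zero fun j hj => by
        by_contra h0
        exact Finset.disjoint_left.mp (hw.disj _ _ h) (Finsupp.mem_support_iff.mpr h0) hj
      rw [this, map_zero, mul_zero]
  rw [sum_congr rfl h1, sum_ite_eq']
  split_ifs with h
  · rfl
  · exact (Finsupp.notMem_support_iff.mp h).symm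

theorem Qm_le {n : ℕ} {N : Set ℕ+} {w : Idx → (ℕ+ →₀ ℝ)} (hw : Sys n N w) (x : ℕ+ →₀ 𝕜)
    (m : ℕ) : ∑ i : Fin (m + 1), ‖Qm w x ⟨m, i⟩‖ ≤ nrm n x := by
  classical
  calc ∑ i : Fin (m + 1), ‖Qm w x ⟨m, i⟩‖
      ≤ ∑ i : Fin (m + 1), ∑ j ∈ (w ⟨m, i⟩).support, ‖x j‖ := by
        apply sum_le_sum
        intro i _
        rw [Qm_apply hw]
        exact norm_sum_le _ _
    _ = ∑ j ∈ (univ : Finset (Fin (m + 1))).biUnion (fun i => (w ⟨m, i⟩).support), ‖x j‖ := by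
        rw [sum_biUnion]
        intro i _ i' _ hne
        exact hw.disj _ _ (by intro h; apply hne; simpa using h)
    _ ≤ nrm n x := le_nrm x (hw.mem m)

theorem J_le {n : ℕ} {N : Set ℕ+} {w : Idx → (ℕ+ →₀ ℝ)} (hw : Sys n N w) (z : Idx →₀ 𝕜)
    (C : ℝ) (hC : 0 ≤ C) (h : ∀ m, ∑ i : Fin (m + 1), ‖z ⟨m, i⟩‖ ≤ C) :
    nrm n (J w z) ≤ 3 * C := by
  classical
  apply nrm_le
  intro E hE
  -- mass of E on the members of the system
  set μ : Idx → ℝ := fun I => ∑ j ∈ E, w I j with hμ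
  have hμ0 : ∀ I, 0 ≤ μ I := fun I => sum_nonneg fun j _ => (hw.av I).nonneg j
  have hμ1 : ∀ I, μ I ≤ 1 := fun I => (hw.av I).mass_le E
  have h1 : ∑ j ∈ E, ‖J w z j‖ ≤ ∑ I ∈ z.support, ‖z I‖ * μ I := by
    calc ∑ j ∈ E, ‖J w z j‖ ≤ ∑ j ∈ E, ∑ I ∈ z.support, ‖z I‖ * w I j := by
          apply sum_le_sum
          intro j _
          rw [J_apply]
          refine (norm_sum_le _ _).trans (le_of_eq (sum_congr rfl fun I _ => ?_))
          rw [norm_mul, norm_algebraMap', Real.norm_of_nonneg ((hw.av I).nonneg j)]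
      _ = ∑ I ∈ z.support, ‖z I‖ * μ I := by
          rw [sum_comm]
          exact sum_congr rfl fun I _ => by rw [hμ]; simp only; rw [mul_sum]
  obtain ⟨M, hM⟩ : ∃ M : ℕ, ∀ I ∈ z.support, I.1 < M :=
    ⟨z.support.sup (fun I => I.1) + 1, fun I hI =>
      Nat.lt_succ_of_le (Finset.le_sup (f := fun I : Idx => I.1) hI)⟩
  have h2 : ∑ I ∈ z.support, ‖z I‖ * μ I ≤
      ∑ m ∈ range M, ∑ i : Fin (m + 1), ‖z ⟨m, i⟩‖ * μ ⟨m, i⟩ := by
    rw [← Finset.sum_sigma (range M) (fun m => (univ : Finset (Fin (m + 1))))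
      (fun I => ‖z I‖ * μ I)]
    apply sum_le_sum_of_subset_of_nonneg
    · intro I hI
      rw [mem_sigma]
      exact ⟨mem_range.mpr (hM I hI), mem_univ _⟩
    · intro I _ _
      exact mul_nonneg (norm_nonneg _) (hμ0 I)
  have h3 := sum_le_aux (fun m => ∑ i : Fin (m + 1), ‖z ⟨m, i⟩‖ * μ ⟨m, i⟩)
    (fun m => C * (1 / 2) ^ m) C hC
    (fun m => sum_nonneg fun i _ => mul_nonneg (norm_nonneg _) (hμ0 _))
    (fun m => (sum_le_sum fun i _ => mul_le_of_le_one_right (norm_nonneg _) (hμ1 _)).trans (h m))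
    (fun m => by positivity)
    (fun l l' hl h0 => by
      -- some member of block l meets E
      obtain ⟨i, -, hi⟩ : ∃ i ∈ (univ : Finset (Fin (l + 1))), 0 < ‖z ⟨l, i⟩‖ * μ ⟨l, i⟩ := by
        by_contra hc
        push Not at hc
        exact absurd (sum_nonpos hc) (not_le.mpr h0)
      have hμi : 0 < μ ⟨l, i⟩ := by
        rcases (hμ0 ⟨l, i⟩).eq_or_lt with h | h
        · rw [← h, mul_zero] at hi; exact absurd hi (lt_irrefl _)
        · exact h
      have hE' := exists_of_mass_pos hμi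
      calc ∑ i : Fin (l' + 1), ‖z ⟨l', i⟩‖ * μ ⟨l', i⟩
          ≤ ∑ i : Fin (l' + 1), ‖z ⟨l', i⟩‖ * (1 / 2) ^ l' := by
            apply sum_le_sum
            intro i' _
            apply mul_le_mul_of_nonneg_left _ (norm_nonneg _)
            exact hw.small ⟨l, i⟩ ⟨l', i'⟩ hl E hE hE'
        _ = (∑ i : Fin (l' + 1), ‖z ⟨l', i⟩‖) * (1 / 2) ^ l' := by rw [sum_mul]
        _ ≤ C * (1 / 2) ^ l' := mul_le_mul_of_nonneg_right (h l') (by positivity)) M
  have h4 : ∑ m ∈ range M, C * (1 / 2 : ℝ) ^ m ≤ 2 * C := by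
    rw [← mul_sum]
    have := sum_geometric_two_le M
    nlinarith
  linarith

/-- The composition of the analysis operator of one system and the synthesis operator of
another. -/
noncomputable def R (w v : Idx → (ℕ+ →₀ ℝ)) : (ℕ+ →₀ 𝕜) →ₗ[𝕜] (ℕ+ →₀ 𝕜) := (J v).comp (Qm w)

theorem R_le {n : ℕ} {N N' : Set ℕ+} {w v : Idx → (ℕ+ →₀ ℝ)} (hw : Sys n N w)
    (hv : Sys n N' v) (x : ℕ+ →₀ 𝕜) : nrm n (R w v x) ≤ 3 * nrm n x :=
  J_le hv (Qm w x) _ (nrm_nonneg n x) (Qm_le hw x)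

theorem R_comp {n : ℕ} {N : Set ℕ+} {w v u : Idx → (ℕ+ →₀ ℝ)}
    (hv : Sys n N v) (x : ℕ+ →₀ 𝕜) : R v u (R w v x) = R w u x := by
  unfold R
  simp only [LinearMap.comp_apply]
  rw [Qm_J hv]

theorem restr_R {n : ℕ} {N : Set ℕ+} {w v : Idx → (ℕ+ →₀ ℝ)}
    (hv : Sys n N v) (x : ℕ+ →₀ 𝕜) : restr N (R w v x) = R w v x := by
  classical
  apply Finsupp.ext
  intro j
  rw [restr_apply]
  split_ifs with h
  · rfl
  · symm
    show J v (Qm w x) j = 0
    rw [J_apply]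
    apply sum_eq_zero
    intro I _
    have : v I j = 0 := by
      by_contra h0
      exact h (hv.sub I j (Finsupp.mem_support_iff.mpr h0))
    rw [this, map_zero, mul_zero]

/-- The factorization of `R w w` through `P_N`. -/
theorem factor {n : ℕ} {N N' : Set ℕ+} {w v : Idx → (ℕ+ →₀ ℝ)} (hw : Sys n N' w)
    (hv : Sys n N v) :
    ext n (R w w) = (ext n (R v w) : X 𝕜 n →L[𝕜] X 𝕜 n) * P n N * ext n (R w v) := by
  apply ext_unique
  intro x
  show ext n (R w w) (inc 𝕜 n x) = ext n (R v w) (P n N (ext n (R w v) (inc 𝕜 n x)))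
  rw [ext_inc (R_le hw hw), ext_inc (R_le hw hv), P_inc, ext_inc (R_le hv hw), restr_R hv,
    R_comp hv]

end Pool.Agent.KS62.SX
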