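import Pool.Agent.KS6_2.SX.Space

/-!
The Schreier spaces embed in `ℓ_2` (indeed in weak `ℓ_1`).
-/

open Finset

set_option maxHeartbeats 400000

namespace Pool.Agent.KS62.SX

variable {𝕜 : Type} [RCLike 𝕜]

theorem sch_mono {n : ℕ} {E : Finset ℕ+} (hE : E ∈ Sch n) : E ∈ Sch (n + 1) := by
  rcases E.eq_empty_or_nonempty with rfl | hne
  · exact empty_mem _
  · exact ⟨1, fun _ => E, fun _ => ⟨hE, hne⟩, fun i i' h => by omega, fun _ a _ => a.pos, by simp⟩

theorem sch_one_subset {n : ℕ} (hn : 1 ≤ n) {E : Finset ℕ+} (hE : E ∈ Sch 1) : E ∈ Sch n := by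
  induction n, hn using Nat.le_induction with
  | base => exact hE
  | succ m hm ih => exact sch_mono ih

theorem mem_sch_one {E : Finset ℕ+} (h : ∀ a ∈ E, E.card ≤ (a : ℕ)) : E ∈ Sch 1 := by
  classical
  refine ⟨E.card, fun i => {E.orderEmbOfFin rfl i}, fun i => ⟨singleton_mem 0 _, by simp⟩,
    fun i j hij a ha b hb => ?_, fun i a ha => ?_, ?_⟩
  · rw [mem_singleton] at ha hb
    subst ha; subst hb
    exact (E.orderEmbOfFin rfl).strictMono hij
  · rw [mem_singleton] at ha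
    subst ha
    exact h _ (E.orderEmbOfFin_mem rfl i)
  · ext a
    simp only [mem_biUnion, mem_univ, true_and, mem_singleton]
    have := Finset.range_orderEmbOfFin E rfl
    constructor
    · intro ha
      have : a ∈ Set.range (E.orderEmbOfFin rfl) := by rw [this]; exact ha
      obtain ⟨i, hi⟩ := this
      exact ⟨i, hi.symm⟩
    · rintro ⟨i, rfl⟩
      exact E.orderEmbOfFin_mem rfl i

/-- Every finite set of size `N` contains a Schreier set of size at least `N / 2`. -/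
theorem exists_half (A : Finset ℕ+) : ∃ B ⊆ A, B ∈ Sch 1 ∧ A.card ≤ 2 * B.card := by
  classical
  set r := (A.card + 1) / 2 with hr
  have h1 : r ≤ (A.filter (fun a : ℕ+ => r ≤ (a : ℕ))).card := by
    have h2 : (A.filter (fun a : ℕ+ => ¬ r ≤ (a : ℕ))).card ≤ r - 1 := by
      have : ((A.filter (fun a : ℕ+ => ¬ r ≤ (a : ℕ))).image (fun a : ℕ+ => (a : ℕ))) ⊆
          Finset.Ico 1 r := by
        intro x hx
        rw [mem_image] at hx
        obtain ⟨a, ha, rfl⟩ := hx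
        rw [mem_filter, not_le] at ha
        rw [mem_Ico]
        exact ⟨a.pos, ha.2⟩
      have h3 := card_le_card this
      rw [card_image_of_injective _ PNat.coe_injective, Nat.card_Ico] at h3
      exact h3
    have h4 := Finset.card_filter_add_card_filter_not (s := A) (fun a : ℕ+ => r ≤ (a : ℕ))
    omega
  obtain ⟨B, hB, hBc⟩ := Finset.exists_subset_card_eq h1
  refine ⟨B, hB.trans (filter_subset _ _), mem_sch_one fun a ha => ?_, by omega⟩
  have := mem_filter.mp (hB ha)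
  rw [hBc]
  exact this.2

/-- In the ball of the Schreier space, among `N` coordinates one is at most `2 / N`. -/
theorem exists_small {n : ℕ} (hn : 1 ≤ n) (x : ℕ+ →₀ 𝕜) (hx : nrm n x ≤ 1) (A : Finset ℕ+)
    (hA : A.Nonempty) : ∃ j ∈ A, (A.card : ℝ) * ‖x j‖ ≤ 2 := by
  obtain ⟨B, hBA, hB, hc⟩ := exists_half A
  have hBn : B.Nonempty := by
    rw [← card_pos] at hA ⊢
    omega
  obtain ⟨j, hj, hmin⟩ := B.exists_min_image (fun j => ‖x j‖) hBn
  refine ⟨j, hBA hj, ?_⟩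
  have h1 : (B.card : ℝ) * ‖x j‖ ≤ ∑ i ∈ B, ‖x i‖ := by
    have := Finset.card_nsmul_le_sum B (fun i => ‖x i‖) ‖x j‖ hmin
    simpa using this
  have h2 := (h1.trans (le_nrm x (sch_one_subset hn hB))).trans hx
  have h3 : (A.card : ℝ) ≤ 2 * B.card := by exact_mod_cast hc
  nlinarith [norm_nonneg (x j)]

theorem l2_aux {n : ℕ} (hn : 1 ≤ n) (x : ℕ+ →₀ 𝕜) (hx : nrm n x ≤ 1) (K : ℝ) (hK : 0 < K)
    (hxK : ∀ j, K * ‖x j‖ ≤ 1) (N : ℕ) : ∀ A : Finset ℕ+, A.card = N →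
    ∑ j ∈ A, ‖x j‖ ^ 2 ≤ 9 * (1 / K - 1 / (N + K)) := by
  induction N with
  | zero =>
    intro A hA
    rw [card_eq_zero] at hA
    subst hA
    simp
  | succ N ih =>
    intro A hA
    have hAn : A.Nonempty := by rw [← card_pos]; omega
    obtain ⟨j, hj, hjs⟩ := exists_small hn x hx A hAn
    rw [hA] at hjs
    push_cast at hjs ⊢
    have h1 := ih (A.erase j) (by rw [card_erase_of_mem hj, hA]; rfl)
    rw [← Finset.add_sum_erase A _ hj]
    have h2 : ((N : ℝ) + 1 + K) * ‖x j‖ ≤ 3 := by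
      have := hxK j
      nlinarith
    have hN : (0 : ℝ) ≤ N := Nat.cast_nonneg N
    have h3 : ‖x j‖ ≤ 3 / ((N : ℝ) + 1 + K) := by
      rw [le_div_iff₀ (by positivity)]
      linarith
    have h4 : ‖x j‖ ^ 2 ≤ (3 / ((N : ℝ) + 1 + K)) ^ 2 := by
      have := norm_nonneg (x j)
      gcongr
    have h5 : (3 / ((N : ℝ) + 1 + K)) ^ 2 ≤ 9 * (1 / (N + K) - 1 / (N + 1 + K)) := by
      rw [div_pow, div_sub_div _ _ (by positivity) (by positivity), ← mul_div_assoc,
        div_le_div_iff₀ (by positivity) (by positivity)]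
      have : (0 : ℝ) < N + K := by positivity
      nlinarith
    linarith

/-- `ℓ_2`-norm squared of a finitely supported sequence -/
noncomputable def sq2 (x : ℕ+ →₀ 𝕜) : ℝ := ∑ j ∈ x.support, ‖x j‖ ^ 2

theorem sq2_nonneg (x : ℕ+ →₀ 𝕜) : 0 ≤ sq2 x := sum_nonneg fun _ _ => by positivity

theorem sum_sq_le (x : ℕ+ →₀ 𝕜) (A : Finset ℕ+) : ∑ j ∈ A, ‖x j‖ ^ 2 ≤ sq2 x := by
  classical
  have h1 : ∑ j ∈ A, ‖x j‖ ^ 2 = ∑ j ∈ A ∩ x.support, ‖x j‖ ^ 2 := by
    symm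
    apply Finset.sum_subset inter_subset_left
    intro i hi hi'
    by_contra h2
    exact hi' (mem_inter.mpr ⟨hi, Finsupp.mem_support_iff.mpr fun h => h2 (by rw [h]; simp)⟩)
  rw [h1]
  exact sum_le_sum_of_subset_of_nonneg inter_subset_right fun j _ _ => by positivity

/-- the basic estimate -/
theorem sq2_le {n : ℕ} (hn : 1 ≤ n) (x : ℕ+ →₀ 𝕜) {η ρ : ℝ} (hρ : nrm n x ≤ ρ) (hρ0 : 0 < ρ)
    (hη : 0 < η) (hxη : ∀ j, ‖x j‖ ≤ η) : sq2 x ≤ 9 * η * ρ := by
  have h1 := l2_aux hn (((ρ⁻¹ : ℝ) : 𝕜) • x) (by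
      rw [nrm_smul, RCLike.norm_ofReal, abs_of_pos (by positivity), inv_mul_le_iff₀ hρ0, mul_one]
      exact hρ) (ρ / η) (by positivity) (fun j => by
      rw [Finsupp.smul_apply, smul_eq_mul, norm_mul, RCLike.norm_ofReal,
        abs_of_pos (by positivity)]
      have := hxη j
      calc ρ / η * (ρ⁻¹ * ‖x j‖) = ‖x j‖ / η := by field_simp
        _ ≤ 1 := by rw [div_le_one hη]; exact this) _ x.support rfl
  have h2 : ∑ j ∈ x.support, ‖(((ρ⁻¹ : ℝ) : 𝕜) • x) j‖ ^ 2 = (ρ⁻¹) ^ 2 * sq2 x := by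
    unfold sq2
    rw [mul_sum]
    apply sum_congr rfl
    intro j _
    rw [Finsupp.smul_apply, smul_eq_mul, norm_mul, RCLike.norm_ofReal,
        abs_of_pos (by positivity), mul_pow]
  rw [h2] at h1
  have h3 : (ρ⁻¹) ^ 2 * sq2 x ≤ 9 * (η / ρ) := by
    refine h1.trans ?_
    have : (0 : ℝ) ≤ 1 / ((x.support.card : ℝ) + ρ / η) := by positivity
    have h4 : 1 / (ρ / η) = η / ρ := by field_simp
    rw [h4]
    linarith
  calc sq2 x = ρ ^ 2 * ((ρ⁻¹) ^ 2 * sq2 x) := by field_simp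
    _ ≤ ρ ^ 2 * (9 * (η / ρ)) := mul_le_mul_of_nonneg_left h3 (by positivity)
    _ = 9 * η * ρ := by field_simp

theorem sq2_le_nrm {n : ℕ} (hn : 1 ≤ n) (x : ℕ+ →₀ 𝕜) : sq2 x ≤ (3 * nrm n x) ^ 2 := by
  rcases (nrm_nonneg n x).eq_or_lt with h | h
  · have : x = 0 := (nrm_eq_zero n x).mp h.symm
    subst this
    simp [sq2]
    positivity
  · have := sq2_le hn x le_rfl h h (fun j => coord_le_nrm n x j)
    nlinarith

end Pool.Agent.KS62.SX
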